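import Pool.Agent.H.MP_5be563_lc.PT.Lists

/-!
More list functions and binary arithmetic in polynomial time.
-/

set_option linter.unusedSectionVars false

namespace Pool.Agent.H.MP_5be563_lc.PT

section more

variable {α β γ δ : Type} [Enc α] [Enc β] [Enc γ] [Enc δ]

theorem iterate_tail (l : List β) (k : ℕ) : List.tail^[k] l = l.drop k := by
  induction k generalizing l with
  | zero => simp
  | succ k ih => rw [Function.iterate_succ_apply, ih]; simp

@[fun_prop]
theorem Poly.drop {n : α → ℕ} {l : α → List β} (hn : Poly n) (hl : Poly l) :
    Poly (fun a => (l a).drop (n a)) := by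
  have := Poly.iterate (f := fun (_ : α) (m : List β) => m.tail) (s := l) (n := n)
    (B := fun a => sz (l a)) (by fun_prop) hl hn hl.sz_le (by
      intro a k _
      rw [iterate_tail]
      exact sz_sublist_le (List.drop_sublist _ _))
  simpa [iterate_tail] using this

@[fun_prop]
theorem Poly.take {n : α → ℕ} {l : α → List β} (hn : Poly n) (hl : Poly l) :
    Poly (fun a => (l a).take (n a)) := by
  have : Poly (fun a => ((l a).reverse.drop ((l a).length - n a)).reverse) := by fun_prop
  refine (show (fun a => (l a).take (n a)) = _ from ?_) ▸ this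
  funext a
  rw [List.drop_reverse, List.reverse_reverse]
  by_cases h : n a ≤ (l a).length
  · congr 1; omega
  · rw [List.take_of_length_le (by omega), List.take_of_length_le (by omega)]

@[fun_prop]
theorem Poly.getD {n : α → ℕ} {l : α → List β} {d : α → β} (hn : Poly n) (hl : Poly l)
    (hd : Poly d) : Poly (fun a => (l a).getD (n a) (d a)) := by
  have : Poly (fun a => ((l a).drop (n a)).headD (d a)) := by fun_prop
  refine (show (fun a => (l a).getD (n a) (d a)) = _ from ?_) ▸ this
  funext a
  simp [List.headD_eq_head?_getD, List.head?_drop, List.getD_eq_getElem?_getD]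

theorem range_iterate (n : ℕ) : (fun l : List ℕ => l ++ [l.length])^[n] [] = List.range n := by
  induction n with
  | zero => rfl
  | succ n ih => rw [Function.iterate_succ_apply', ih, List.range_succ]; simp

theorem sz_range_le (n : ℕ) : sz (List.range n) ≤ (n + 1) * (2 * n + 2) + 1 := by
  have h := sz_le_of_forall (List.range n) (2 * n + 1) (by
    intro a ha
    rw [List.mem_range] at ha
    rw [sz_nat]; omega)
  rw [List.length_range] at h
  nlinarith

@[fun_prop]
theorem Poly.range {n : α → ℕ} (hn : Poly n) : Poly (fun a => List.range (n a)) := by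
  have hB : PBdd (fun a => (sz (n a) + 1) * (2 * sz (n a) + 2) + 1) :=
    ((hn.sz_le.add (PBdd.const 1)).mul (((PBdd.const 2).mul hn.sz_le).add
      (PBdd.const 2))).add (PBdd.const 1)
  have := Poly.iterate (f := fun (_ : α) (l : List ℕ) => l ++ [l.length]) (s := fun _ => [])
    (n := n) (by fun_prop) (by fun_prop) hn hB (by
      intro a k hk
      rw [range_iterate]
      refine (sz_range_le k).trans ?_
      have : k ≤ sz (n a) := by rw [sz_nat]; omega
      have h2 : (k + 1) * (2 * k + 2) ≤ (sz (n a) + 1) * (2 * sz (n a) + 2) :=
        Nat.mul_le_mul (by omega) (by omega)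
      omega)
  simpa only [range_iterate] using this

@[fun_prop]
theorem Poly.oelim {o : α → Option β} {f : α → γ} {g : α → β → γ} (ho : Poly o) (hf : Poly f)
    (hg : Poly (fun p : α × β => g p.1 p.2)) : Poly (fun a => (o a).elim (f a) (g a)) := by
  have := Poly.ocase (f := f) (g := g) ho hf hg
  refine (show (fun a => (o a).elim (f a) (g a)) = _ from ?_) ▸ this
  funext a; cases o a <;> rfl

/-- membership test -/
def memb (x : ℕ) (l : List ℕ) : Bool := l.any (fun y => y == x)

theorem memb_iff {x : ℕ} {l : List ℕ} : memb x l = true ↔ x ∈ l := by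
  simp [memb]

@[fun_prop]
theorem Poly.memb {x : α → ℕ} {l : α → List ℕ} (hx : Poly x) (hl : Poly l) :
    Poly (fun a => memb (x a) (l a)) := by
  unfold PT.memb
  fun_prop

/-! ### Binary numbers, least significant bit first -/

/-- value of a binary numeral -/
def bval : List Bool → ℕ
  | [] => 0
  | b :: l => b.toNat + 2 * bval l

@[simp] theorem bval_nil : bval [] = 0 := rfl
@[simp] theorem bval_cons (b : Bool) (l : List Bool) : bval (b :: l) = b.toNat + 2 * bval l := rfl

theorem bval_append (l m : List Bool) : bval (l ++ m) = bval l + 2 ^ l.length * bval m := by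
  induction l with
  | nil => simp
  | cons b l ih => simp only [List.cons_append, bval_cons, ih, List.length_cons]; ring

theorem bval_head_tail (l : List Bool) : bval l = (l.headD false).toNat + 2 * bval l.tail := by
  cases l <;> simp

theorem bval_bits (n : ℕ) : bval (Nat.bits n) = n := by
  induction n using Nat.binaryRec' with
  | zero => simp
  | bit b n h ih =>
    rw [Nat.bits_append_bit n b h, bval_cons, ih]
    cases b <;> simp [Nat.bit] <;> ring

/-- one step of addition; state: the two remaining numerals, the carry, the reversed output -/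
def addStep (s : List Bool × List Bool × Bool × List Bool) :
    List Bool × List Bool × Bool × List Bool :=
  (s.1.tail, s.2.1.tail,
    (s.1.headD false && s.2.1.headD false) || (s.1.headD false && s.2.2.1) ||
      (s.2.1.headD false && s.2.2.1),
    Bool.xor (Bool.xor (s.1.headD false) (s.2.1.headD false)) s.2.2.1 :: s.2.2.2)

@[fun_prop]
theorem Poly.addStep {s : α → List Bool × List Bool × Bool × List Bool} (hs : Poly s) :
    Poly (fun a => addStep (s a)) := by
  unfold PT.addStep
  fun_prop

/-- binary addition -/
def badd (a b : List Bool) : List Bool :=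
  (addStep^[a.length + (b.length - a.length) + 1] (a, b, false, [])).2.2.2.reverse

theorem addStep_spec (k : ℕ) : ∀ (a b : List Bool) (c : Bool) (out : List Bool),
    (addStep^[k] (a, b, c, out)).1 = a.drop k ∧ (addStep^[k] (a, b, c, out)).2.1 = b.drop k ∧
    (addStep^[k] (a, b, c, out)).2.2.2.length = out.length + k ∧
    bval (addStep^[k] (a, b, c, out)).2.2.2.reverse +
      2 ^ (out.length + k) * (bval (a.drop k) + bval (b.drop k) +
        (addStep^[k] (a, b, c, out)).2.2.1.toNat) =
      bval out.reverse + 2 ^ out.length * (bval a + bval b + c.toNat) := by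
  induction k with
  | zero => intro a b c out; simp
  | succ k ih =>
    intro a b c out
    rw [Function.iterate_succ_apply]
    have h := ih (addStep (a, b, c, out)).1 (addStep (a, b, c, out)).2.1
      (addStep (a, b, c, out)).2.2.1 (addStep (a, b, c, out)).2.2.2
    refine ⟨by rw [h.1]; simp [addStep], by rw [h.2.1]; simp [addStep],
      by rw [h.2.2.1]; simp [addStep]; omega, ?_⟩
    have h4 := h.2.2.2
    have e1 : (addStep (a, b, c, out)).1 = a.tail := rfl
    have e2 : (addStep (a, b, c, out)).2.1 = b.tail := rfl
    have e3 : (addStep (a, b, c, out)).2.2.2.length = out.length + 1 := rfl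
    rw [e3] at h4
    have e4 : out.length + 1 + k = out.length + (k + 1) := by ring
    rw [e4] at h4
    have e5 : (addStep (a, b, c, out)).1.drop k = a.drop (k + 1) := by simp [addStep]
    have e6 : (addStep (a, b, c, out)).2.1.drop k = b.drop (k + 1) := by simp [addStep]
    rw [e5, e6] at h4
    have e7 : ((addStep (a, b, c, out)).1, (addStep (a, b, c, out)).2.1,
      (addStep (a, b, c, out)).2.2.1, (addStep (a, b, c, out)).2.2.2) =
      addStep (a, b, c, out) := rfl
    rw [e7] at h4
    rw [h4, e1, e2]
    have e8 : (addStep (a, b, c, out)).2.2.2.reverse = out.reverse ++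
      [Bool.xor (Bool.xor (a.headD false) (b.headD false)) c] := by simp [addStep]
    rw [e8, bval_append, List.length_reverse, bval_head_tail a, bval_head_tail b]
    have e9 : (addStep (a, b, c, out)).2.2.1 = ((a.headD false && b.headD false) ||
      (a.headD false && c) || (b.headD false && c)) := rfl
    rw [e9]
    simp only [bval_cons, bval_nil]
    cases a.headD false <;> cases b.headD false <;> cases c <;> simp <;> ring

theorem bval_badd (a b : List Bool) : bval (badd a b) = bval a + bval b := by
  unfold badd
  set N := a.length + (b.length - a.length) with hN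
  have h := addStep_spec (N + 1) a b false []
  have ha : a.drop (N + 1) = [] := List.drop_eq_nil_of_le (by omega)
  have hb : b.drop (N + 1) = [] := List.drop_eq_nil_of_le (by omega)
  have hc : (addStep^[N + 1] (a, b, false, [])).2.2.1 = false := by
    rw [Function.iterate_succ_apply']
    have h1 := addStep_spec N a b false []
    have ha' : a.drop N = [] := List.drop_eq_nil_of_le (by omega)
    have hb' : b.drop N = [] := List.drop_eq_nil_of_le (by omega)
    rw [ha', hb'] at h1
    change ((_ && _) || (_ && _) || (_ && _)) = false
    rw [h1.1, h1.2.1]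
    simp
  have h4 := h.2.2.2
  rw [ha, hb, hc] at h4
  simpa using h4

theorem length_badd (a b : List Bool) : (badd a b).length = max a.length b.length + 1 := by
  unfold badd
  have h := addStep_spec (a.length + (b.length - a.length) + 1) a b false []
  rw [List.length_reverse, h.2.2.1]
  simp; omega

theorem sz_bool_list (l : List Bool) : 2 * l.length + 1 ≤ sz l ∧ sz l ≤ 4 * l.length + 1 := by
  induction l with
  | nil => simp
  | cons b l ih =>
    have := sz_bool_le b
    have := sz_pos b
    simp only [sz_lcons, List.length_cons]
    omega

@[fun_prop]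
theorem Poly.badd {f g : α → List Bool} (hf : Poly f) (hg : Poly g) :
    Poly (fun a => badd (f a) (g a)) := by
  have key := Poly.iterate (α := α) (f := fun (_ : α) s => PT.addStep s)
    (s := fun a => (f a, g a, false, ([] : List Bool)))
    (n := fun a => (f a).length + ((g a).length - (f a).length) + 1)
    (B := fun a => 9 * (sz (f a) + sz (g a)) + 20) (by fun_prop) (by fun_prop) (by fun_prop)
    (((PBdd.const 9).mul (hf.sz_le.add hg.sz_le)).add (PBdd.const 20)) (by
      intro a k hk
      have h := addStep_spec k (f a) (g a) false []
      set s := PT.addStep^[k] (f a, g a, false, []) with hs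
      have e : sz s = sz s.1 + (sz s.2.1 + (sz s.2.2.1 + sz s.2.2.2 + 1) + 1) + 1 := rfl
      rw [e, h.1, h.2.1]
      have h1 := sz_sublist_le (List.drop_sublist k (f a))
      have h2 := sz_sublist_le (List.drop_sublist k (g a))
      have h3 := sz_bool_le s.2.2.1
      have h4 := (sz_bool_list s.2.2.2).2
      rw [h.2.2.1] at h4
      have h5 := sz_bool_list (f a)
      have h6 := sz_bool_list (g a)
      simp only [List.length_nil] at h4
      omega)
  have : Poly (fun a => (PT.addStep^[(f a).length + ((g a).length - (f a).length) + 1]
    (f a, g a, false, ([] : List Bool))).2.2.2.reverse) := by fun_prop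
  exact this

/-- one step of comparison -/
def leStep (s : List Bool × List Bool × Bool) : List Bool × List Bool × Bool :=
  (s.1.tail, s.2.1.tail,
    bif s.1.headD false == s.2.1.headD false then s.2.2 else s.2.1.headD false)

@[fun_prop]
theorem Poly.leStep {s : α → List Bool × List Bool × Bool} (hs : Poly s) :
    Poly (fun a => leStep (s a)) := by
  unfold PT.leStep
  fun_prop

/-- binary comparison -/
def ble (a b : List Bool) : Bool := (leStep^[a.length + b.length] (a, b, true)).2.2

theorem leStep_spec (k : ℕ) : ∀ (a b : List Bool) (r : Bool),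
    (leStep^[k] (a, b, r)).1 = a.drop k ∧ (leStep^[k] (a, b, r)).2.1 = b.drop k ∧
    ((bval a < bval b ∨ (bval a = bval b ∧ r = true)) ↔ (bval (a.drop k) < bval (b.drop k) ∨
      (bval (a.drop k) = bval (b.drop k) ∧ (leStep^[k] (a, b, r)).2.2 = true))) := by
  induction k with
  | zero => intro a b r; simp
  | succ k ih =>
    intro a b r
    rw [Function.iterate_succ_apply]
    have h := ih (leStep (a, b, r)).1 (leStep (a, b, r)).2.1 (leStep (a, b, r)).2.2
    refine ⟨by rw [h.1]; simp [leStep], by rw [h.2.1]; simp [leStep], ?_⟩
    have h3 := h.2.2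
    have e5 : (leStep (a, b, r)).1.drop k = a.drop (k + 1) := by simp [leStep]
    have e6 : (leStep (a, b, r)).2.1.drop k = b.drop (k + 1) := by simp [leStep]
    rw [e5, e6] at h3
    have e7 : ((leStep (a, b, r)).1, (leStep (a, b, r)).2.1,
      (leStep (a, b, r)).2.2) = leStep (a, b, r) := rfl
    rw [e7] at h3
    rw [← h3]
    have e1 : (leStep (a, b, r)).1 = a.tail := rfl
    have e2 : (leStep (a, b, r)).2.1 = b.tail := rfl
    have e3 : (leStep (a, b, r)).2.2 =
      bif a.headD false == b.headD false then r else b.headD false := rfl
    rw [e1, e2, e3, bval_head_tail a, bval_head_tail b]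
    cases a.headD false <;> cases b.headD false <;> simp <;> omega

theorem ble_iff (a b : List Bool) : ble a b = true ↔ bval a ≤ bval b := by
  unfold ble
  have h := (leStep_spec (a.length + b.length) a b true).2.2
  rw [List.drop_eq_nil_of_le (by omega), List.drop_eq_nil_of_le (by omega)] at h
  simp at h
  rw [← h]
  omega

@[fun_prop]
theorem Poly.ble {f g : α → List Bool} (hf : Poly f) (hg : Poly g) :
    Poly (fun a => ble (f a) (g a)) := by
  have key := Poly.iterate (α := α) (f := fun (_ : α) s => PT.leStep s)
    (s := fun a => (f a, g a, true))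
    (n := fun a => (f a).length + (g a).length)
    (B := fun a => sz (f a) + sz (g a) + 20) (by fun_prop) (by fun_prop) (by fun_prop)
    (((hf.sz_le.add hg.sz_le)).add (PBdd.const 20)) (by
      intro a k hk
      have h := leStep_spec k (f a) (g a) true
      set s := PT.leStep^[k] (f a, g a, true) with hs
      have e : sz s = sz s.1 + (sz s.2.1 + sz s.2.2 + 1) + 1 := rfl
      rw [e, h.1, h.2.1]
      have h1 := sz_sublist_le (List.drop_sublist k (f a))
      have h2 := sz_sublist_le (List.drop_sublist k (g a))
      have h3 := sz_bool_le s.2.2
      omega)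
  have : Poly (fun a => (PT.leStep^[(f a).length + (g a).length] (f a, g a, true)).2.2) := by
    fun_prop
  exact this

/-- sum of a list of binary numbers -/
def bsum (l : List (List Bool)) : List Bool := l.foldr badd []

theorem bval_bsum (l : List (List Bool)) : bval (bsum l) = (l.map bval).sum := by
  induction l with
  | nil => simp [bsum]
  | cons a l ih =>
    have : bsum (a :: l) = badd a (bsum l) := rfl
    rw [this, bval_badd, ih]; simp

theorem length_bsum_le (l : List (List Bool)) : (bsum l).length ≤ sz l := by
  induction l with
  | nil => simp [bsum]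
  | cons a l ih =>
    have : bsum (a :: l) = badd a (bsum l) := rfl
    rw [this, length_badd]
    have := sz_bool_list a
    simp only [sz_lcons]
    omega

@[fun_prop]
theorem Poly.bsum {l : α → List (List Bool)} (hl : Poly l) : Poly (fun a => bsum (l a)) := by
  have := Poly.foldr (f := fun p : α × List Bool × List Bool => PT.badd p.2.2 p.2.1) (l := l)
    (s0 := fun _ => []) (B := fun a => 4 * sz (l a) + 1) (by fun_prop) hl (by fun_prop)
    (((PBdd.const 4).mul hl.sz_le).add (PBdd.const 1)) (by
      intro a l₁ l₂ h
      have h1 := length_bsum_le l₂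
      have h2 := (sz_bool_list (PT.bsum l₂)).2
      have h3 : sz l₂ ≤ sz (l a) := by rw [h]; exact sz_sublist_le (List.sublist_append_right _ _)
      change sz (PT.bsum l₂) ≤ _
      omega)
  exact this

/-- binary multiplication -/
def bmul (a b : List Bool) : List Bool :=
  a.foldr (fun bit acc => badd (false :: acc) (bif bit then b else [])) []

theorem bval_bmul (a b : List Bool) : bval (bmul a b) = bval a * bval b := by
  induction a with
  | nil => simp [bmul]
  | cons x a ih =>
    have : bmul (x :: a) b = badd (false :: bmul a b) (bif x then b else []) := rfl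
    rw [this, bval_badd, bval_cons, ih]
    cases x <;> simp <;> ring

theorem length_bmul_le (a b : List Bool) : (bmul a b).length ≤ 2 * a.length + b.length := by
  induction a with
  | nil => simp [bmul]
  | cons x a ih =>
    have : bmul (x :: a) b = badd (false :: bmul a b) (bif x then b else []) := rfl
    rw [this, length_badd]
    cases x
    · simp; omega
    · simp; omega

@[fun_prop]
theorem Poly.bmul {f g : α → List Bool} (hf : Poly f) (hg : Poly g) :
    Poly (fun a => bmul (f a) (g a)) := by
  have := Poly.foldr (f := fun p : α × List Bool × Bool =>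
      PT.badd (false :: p.2.1) (bif p.2.2 then g p.1 else []))
    (l := f) (s0 := fun _ => []) (B := fun a => 8 * sz (f a) + 4 * sz (g a) + 1)
    (by fun_prop) hf (by fun_prop)
    ((((PBdd.const 8).mul hf.sz_le).add ((PBdd.const 4).mul hg.sz_le)).add (PBdd.const 1)) (by
      intro a l₁ l₂ h
      have h1 := length_bmul_le l₂ (g a)
      have h2 := (sz_bool_list (PT.bmul l₂ (g a))).2
      have h3 : sz l₂ ≤ sz (f a) := by rw [h]; exact sz_sublist_le (List.sublist_append_right _ _)
      have h4 := (sz_bool_list l₂).1
      have h5 := (sz_bool_list (g a)).1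
      change sz (PT.bmul l₂ (g a)) ≤ _
      omega)
  exact this

/-- product of a list of binary numbers -/
def bprod (l : List (List Bool)) : List Bool := l.foldr bmul [true]

theorem bval_bprod (l : List (List Bool)) : bval (bprod l) = (l.map bval).prod := by
  induction l with
  | nil => simp [bprod]
  | cons a l ih =>
    have : bprod (a :: l) = bmul a (bprod l) := rfl
    rw [this, bval_bmul, ih]; simp

theorem length_bprod_le (l : List (List Bool)) : (bprod l).length ≤ sz l := by
  induction l with
  | nil => simp [bprod]
  | cons a l ih =>
    have : bprod (a :: l) = bmul a (bprod l) := rfl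
    rw [this]
    have := length_bmul_le a (bprod l)
    have := sz_bool_list a
    simp only [sz_lcons]
    omega

@[fun_prop]
theorem Poly.bprod {l : α → List (List Bool)} (hl : Poly l) : Poly (fun a => bprod (l a)) := by
  have := Poly.foldr (f := fun p : α × List Bool × List Bool => PT.bmul p.2.2 p.2.1) (l := l)
    (s0 := fun _ => [true]) (B := fun a => 4 * sz (l a) + 1) (by fun_prop) hl (by fun_prop)
    (((PBdd.const 4).mul hl.sz_le).add (PBdd.const 1)) (by
      intro a l₁ l₂ h
      have h1 := length_bprod_le l₂
      have h2 := (sz_bool_list (PT.bprod l₂)).2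
      have h3 : sz l₂ ≤ sz (l a) := by rw [h]; exact sz_sublist_le (List.sublist_append_right _ _)
      change sz (PT.bprod l₂) ≤ _
      omega)
  exact this

end more

end Pool.Agent.H.MP_5be563_lc.PT
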