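import Pool.Agent.H.MP_5be563_lc.PT.Tree

/-!
From `Turing.TM2ComputableInPolyTime` to `Poly`: every function computed in polynomial time by a
`TM2` machine is in the class `Poly`.
-/

set_option linter.unusedSectionVars false

namespace Pool.Agent.H.MP_5be563_lc.PT

open Turing

section

variable {α β γ : Type} [Enc α] [Enc β] [Enc γ]

/-! ### Functions on a finite type -/

noncomputable instance instEncPi {K : Type} [Fintype K] : Enc (K → β) where
  enc s := enc ((Finset.univ.toList : List K).map s)
  inj := by
    intro s t h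
    have h2 := Enc.inj h
    funext k
    exact List.map_inj_left.1 h2 k (by simp)

theorem enc_pi {K : Type} [Fintype K] (s : K → β) :
    enc s = enc ((Finset.univ.toList : List K).map s) := rfl

theorem Poly.mk_pi {K : Type} [Fintype K] {f : α → K → β} (hf : ∀ k, Poly (fun a => f a k)) :
    Poly f := by
  have : ∀ L : List K, Poly (fun a => L.map (f a)) := by
    intro L
    induction L with
    | nil => simpa using Poly.const (α := α) ([] : List β)
    | cons k L ih => simpa using Poly.lcons (hf k) ih
  exact (this Finset.univ.toList).congr_enc fun _ => rfl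

theorem Poly.eval_pi {K : Type} [Fintype K] [Inhabited β] {f : α → K → β} (hf : Poly f)
    (k : K) : Poly (fun a => f a k) := by
  classical
  have h1 : Poly (fun a => (Finset.univ.toList : List K).map (f a)) :=
    hf.congr_enc fun _ => rfl
  have h2 : Poly (fun a => ((Finset.univ.toList : List K).map (f a)).getD
    ((Finset.univ.toList : List K).idxOf k) default) := by fun_prop
  refine (show (fun a => f a k) = _ from ?_) ▸ h2
  funext a
  have hk : k ∈ (Finset.univ.toList : List K) := by simp
  have hlt := List.idxOf_lt_length_iff.2 hk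
  simp [List.getD_eq_getElem?_getD, List.getElem?_map, List.getElem?_eq_getElem hlt]

/-! ### Finite case distinctions -/

theorem Poly.fincase {T : Type} [Finite T] (c : T → ℕ) (hc : Function.Injective c)
    (g : T → α → β) (hg : ∀ t, Poly (g t)) {n : α → ℕ} (hn : Poly n) (d : α → β)
    (hd : Poly d) : ∃ h : α → β, Poly h ∧ ∀ t a, n a = c t → h a = g t a := by
  classical
  have := Fintype.ofFinite T
  have key : ∀ L : List T, ∃ h : α → β, Poly h ∧ ∀ t ∈ L, ∀ a, n a = c t → h a = g t a := by
    intro L
    induction L with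
    | nil => exact ⟨d, hd, by simp⟩
    | cons t L ih =>
      obtain ⟨h, h1, h2⟩ := ih
      refine ⟨fun a => if n a = c t then g t a else h a,
        Poly.ite (c := fun a => n a = c t) (by fun_prop) (hg t) h1, ?_⟩
      intro t' ht' a ha
      by_cases hq : n a = c t
      · have : t' = t := hc (by rw [← ha, hq])
        subst this
        simp [hq]
      · beta_reduce
        rw [if_neg hq]
        rcases List.mem_cons.1 ht' with rfl | ht'
        · exact absurd ha hq
        · exact h2 t' ht' a ha
  obtain ⟨h, h1, h2⟩ := key Finset.univ.toList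
  exact ⟨h, h1, fun t a ha => h2 t (by simp) a ha⟩

/-- every function on a finite type is polynomial -/
theorem Poly.of_finite [Finite α] (f : α → β) : Poly f := by
  classical
  have := Fintype.ofFinite α
  rcases isEmpty_or_nonempty α with he | ⟨⟨a0⟩⟩
  · exact ⟨.skip, 0, fun a => (he.false a).elim⟩
  have key : ∀ L : List α, ∃ h : α → β, Poly h ∧ ∀ a ∈ L, h a = f a := by
    intro L
    induction L with
    | nil => exact ⟨fun _ => f a0, Poly.const _, by simp⟩
    | cons t L ih =>
      obtain ⟨h, h1, h2⟩ := ih
      refine ⟨fun a => if a = t then f t else h a,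
        Poly.ite (c := fun a => a = t) (by fun_prop) (Poly.const _) h1, ?_⟩
      intro a ha
      by_cases hq : a = t
      · simp [hq]
      · beta_reduce
        rw [if_neg hq]
        rcases List.mem_cons.1 ha with rfl | ha
        · exact absurd rfl hq
        · exact h2 a ha
  obtain ⟨h, h1, h2⟩ := key Finset.univ.toList
  have : h = f := funext fun a => h2 a (by simp)
  exact this ▸ h1

/-- evaluation of a fixed polynomial -/
theorem Poly.evalPolynomial (P : Polynomial ℕ) {n : α → ℕ} (hn : Poly n) :
    Poly (fun a => P.eval (n a)) := by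
  induction P using Polynomial.induction_on' with
  | add p q hp hq => simpa using Poly.add hp hq
  | monomial k c =>
    have : ∀ k : ℕ, Poly (fun a => n a ^ k) := by
      intro k
      induction k with
      | zero => simpa using Poly.const (α := α) 1
      | succ k ih => simpa [pow_succ] using Poly.mul ih hn
    have h2 : Poly (fun a => c * n a ^ k) := Poly.mul (Poly.const c) (this k)
    simpa using h2

end

/-! ### Simulation of a machine -/

section sim

variable {K : Type} [DecidableEq K] {Γ : K → Type} {Λ σ : Type}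

/-- All pushed symbols belong to the given sets. -/
def Pushes (Sy : ∀ k, Set (Γ k)) : TM2.Stmt Γ Λ σ → Prop
  | .push k f q => (∀ v, f v ∈ Sy k) ∧ Pushes Sy q
  | .peek _ _ q => Pushes Sy q
  | .pop _ _ q => Pushes Sy q
  | .load _ q => Pushes Sy q
  | .branch _ q₁ q₂ => Pushes Sy q₁ ∧ Pushes Sy q₂
  | .goto _ => True
  | .halt => True

theorem Pushes.mono {Sy Sy' : ∀ k, Set (Γ k)} (h : ∀ k, Sy k ⊆ Sy' k) :
    ∀ q : TM2.Stmt Γ Λ σ, Pushes Sy q → Pushes Sy' q := by
  intro q
  induction q with
  | push k f q ih => exact fun hq => ⟨fun v => h k (hq.1 v), ih hq.2⟩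
  | peek k f q ih => exact ih
  | pop k f q ih => exact ih
  | load a q ih => exact ih
  | branch p q₁ q₂ ih₁ ih₂ => exact fun hq => ⟨ih₁ hq.1, ih₂ hq.2⟩
  | goto l => exact fun _ => trivial
  | halt => exact fun _ => trivial

theorem exists_pushes [Finite σ] (q : TM2.Stmt Γ Λ σ) :
    ∃ Sy : ∀ k, Set (Γ k), (∀ k, (Sy k).Finite) ∧ Pushes Sy q := by
  classical
  induction q with
  | push k f q ih =>
    obtain ⟨Sy, h1, h2⟩ := ih
    refine ⟨fun k' => Sy k' ∪ Function.update (fun k => (∅ : Set (Γ k))) k (Set.range f) k',
      ?_, ?_, ?_⟩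
    · intro k'
      refine (h1 k').union ?_
      by_cases hk : k' = k
      · subst hk
        rw [Function.update_self]
        exact Set.finite_range f
      · rw [Function.update_of_ne hk]
        exact Set.finite_empty
    · intro v
      right
      rw [Function.update_self]
      exact ⟨v, rfl⟩
    · exact Pushes.mono (fun k' => Set.subset_union_left) q h2
  | peek k f q ih => exact ih
  | pop k f q ih => exact ih
  | load a q ih => exact ih
  | branch p q₁ q₂ ih₁ ih₂ =>
    obtain ⟨Sy, h1, h2⟩ := ih₁
    obtain ⟨Sy', h3, h4⟩ := ih₂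
    exact ⟨fun k => Sy k ∪ Sy' k, fun k => (h1 k).union (h3 k),
      Pushes.mono (fun k => Set.subset_union_left) _ h2,
      Pushes.mono (fun k => Set.subset_union_right) _ h4⟩
  | goto l => exact ⟨fun _ => ∅, fun _ => Set.finite_empty, trivial⟩
  | halt => exact ⟨fun _ => ∅, fun _ => Set.finite_empty, trivial⟩

theorem exists_pushes_all [Finite σ] [Finite Λ] (M : Λ → TM2.Stmt Γ Λ σ) :
    ∃ Sy : ∀ k, Set (Γ k), (∀ k, (Sy k).Finite) ∧ ∀ l, Pushes Sy (M l) := by
  choose Sy h1 h2 using fun l => exists_pushes (M l)
  exact ⟨fun k => ⋃ l, Sy l k, fun k => Set.finite_iUnion fun l => h1 l k,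
    fun l => Pushes.mono (fun k => Set.subset_iUnion (fun l => Sy l k) l) _ (h2 l)⟩

/-- number of pushes of a statement -/
def npush : TM2.Stmt Γ Λ σ → ℕ
  | .push _ _ q => npush q + 1
  | .peek _ _ q => npush q
  | .pop _ _ q => npush q
  | .load _ q => npush q
  | .branch _ q₁ q₂ => npush q₁ + npush q₂
  | .goto _ => 0
  | .halt => 0

/-- total length of the stacks -/
def tlen [Fintype K] (S : ∀ k, List (Γ k)) : ℕ := ∑ k, (S k).length

theorem tlen_update_le [Fintype K] (S : ∀ k, List (Γ k)) (k : K) (l : List (Γ k)) (c : ℕ)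
    (h : l.length ≤ (S k).length + c) : tlen (Function.update S k l) ≤ tlen S + c := by
  unfold tlen
  have e1 := Finset.sum_erase_add Finset.univ (fun k' => (Function.update S k l k').length)
    (Finset.mem_univ k)
  have e2 := Finset.sum_erase_add Finset.univ (fun k' => (S k').length) (Finset.mem_univ k)
  rw [← e1, ← e2]
  have : ∑ x ∈ Finset.univ.erase k, (Function.update S k l x).length =
      ∑ x ∈ Finset.univ.erase k, (S x).length := by
    apply Finset.sum_congr rfl
    intro x hx
    rw [Function.update_of_ne (Finset.ne_of_mem_erase hx)]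
  rw [this, Function.update_self]
  omega

theorem tlen_stepAux [Fintype K] (q : TM2.Stmt Γ Λ σ) : ∀ (v : σ) (S : ∀ k, List (Γ k)),
    tlen (TM2.stepAux q v S).stk ≤ tlen S + npush q := by
  induction q with
  | push k f q ih =>
    intro v S
    rw [TM2.stepAux]
    have h1 := ih v (Function.update S k (f v :: S k))
    have h2 := tlen_update_le S k (f v :: S k) 1 (by simp)
    simp only [npush]
    omega
  | peek k f q ih => intro v S; rw [TM2.stepAux]; exact ih _ _
  | pop k f q ih =>
    intro v S
    rw [TM2.stepAux]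
    have h1 := ih (f v (S k).head?) (Function.update S k (S k).tail)
    have h2 := tlen_update_le S k (S k).tail 0 (by simp)
    simp only [npush]
    omega
  | load a q ih => intro v S; rw [TM2.stepAux]; exact ih _ _
  | branch p q₁ q₂ ih₁ ih₂ =>
    intro v S
    rw [TM2.stepAux]
    have h1 := ih₁ v S
    have h2 := ih₂ v S
    simp only [npush]
    cases p v
    · simp only [cond_false]; omega
    · simp only [cond_true]; omega
  | goto l => intro v S; rw [TM2.stepAux]; simp
  | halt => intro v S; rw [TM2.stepAux]; simp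

/-- codes of the stacks -/
def codeS (code : ∀ k, Γ k → ℕ) (S : ∀ k, List (Γ k)) : K → List ℕ :=
  fun k => (S k).map (code k)

theorem codeS_update (code : ∀ k, Γ k → ℕ) (S : ∀ k, List (Γ k)) (k : K) (l : List (Γ k)) :
    codeS code (Function.update S k l) = Function.update (codeS code S) k (l.map (code k)) := by
  funext k'
  unfold codeS
  by_cases h : k' = k
  · subst h; simp
  · simp [Function.update_of_ne h]

variable [Fintype K] [Finite σ] [Finite Λ]

theorem Poly.updatePi {α β : Type} [Enc α] [Enc β] [Inhabited β] {f : α → K → β} {k : K}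
    {x : α → β} (hf : Poly f) (hx : Poly x) : Poly (fun a => Function.update (f a) k (x a)) := by
  refine Poly.mk_pi fun k' => ?_
  by_cases h : k' = k
  · subst h
    simpa using hx
  · simpa [Function.update_of_ne h] using hf.eval_pi k'

/-- Simulation of one statement. -/
theorem sim_stmt (Sy : ∀ k, Set (Γ k)) (hSy : ∀ k, (Sy k).Finite) (code : ∀ k, Γ k → ℕ)
    (hcode : ∀ k, Set.InjOn (code k) (Sy k)) (cL : Option Λ → ℕ) (cs : σ → ℕ)
    (q : TM2.Stmt Γ Λ σ) : Pushes Sy q → ∀ v : σ,
      ∃ F : (K → List ℕ) → ℕ × ℕ × (K → List ℕ), Poly F ∧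
        ∀ S : ∀ k, List (Γ k), (∀ k, ∀ x ∈ S k, x ∈ Sy k) →
          F (codeS code S) = (cL (TM2.stepAux q v S).l, cs (TM2.stepAux q v S).var,
            codeS code (TM2.stepAux q v S).stk) ∧
          ∀ k, ∀ x ∈ (TM2.stepAux q v S).stk k, x ∈ Sy k := by
  classical
  -- coding of the top symbol
  let ct : ∀ k, Option (Sy k) → ℕ := fun k o => o.elim 0 (fun x => code k x.1 + 1)
  have hct : ∀ k, Function.Injective (ct k) := by
    intro k o o' h
    cases o with
    | none => cases o' with
      | none => rfl
      | some y => simp [ct] at h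
    | some x => cases o' with
      | none => simp [ct] at h
      | some y =>
        simp only [ct, Option.elim, Nat.add_right_cancel_iff] at h
        rw [Subtype.ext (hcode k x.2 y.2 h)]
  let top : ∀ _ : K, (K → List ℕ) → ℕ := fun k s => (s k).head?.elim 0 (fun c => c + 1)
  have htop : ∀ k, Poly (top k) := by
    intro k
    have h1 : Poly (fun s : K → List ℕ => s k) := Poly.id.eval_pi k
    have h2 : Poly (fun s : K → List ℕ => (s k).head?) := h1.head?
    exact Poly.oelim h2 (Poly.const 0) (by fun_prop)
  have htopS : ∀ k (S : ∀ k, List (Γ k)) (hS : ∀ k, ∀ x ∈ S k, x ∈ Sy k),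
      ∃ o : Option (Sy k), top k (codeS code S) = ct k o ∧
        (S k).head? = o.map (fun x => x.1) := by
    intro k S hS
    cases hk : S k with
    | nil => exact ⟨none, by simp [top, codeS, hk, ct], by simp⟩
    | cons x l =>
      exact ⟨some ⟨x, hS k x (by simp [hk])⟩, by simp [top, codeS, hk, ct], by simp⟩
  have hfin : ∀ k, Finite (Option (Sy k)) := fun k => by
    have := (hSy k).to_subtype
    infer_instance
  induction q with
  | push k f q ih =>
    rintro ⟨h1, h2⟩ v
    obtain ⟨F, hF, hF2⟩ := ih h2 v
    refine ⟨fun s => F (Function.update s k (code k (f v) :: s k)),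
      Poly.comp hF (Poly.updatePi (f := fun s : K → List ℕ => s) (by fun_prop)
        (Poly.lcons (by fun_prop) (Poly.id.eval_pi k))), ?_⟩
    intro S hS
    rw [TM2.stepAux]
    have h3 := hF2 (Function.update S k (f v :: S k)) (by
      intro k' x hx
      by_cases hk : k' = k
      · subst hk
        rw [Function.update_self] at hx
        rcases List.mem_cons.1 hx with rfl | hx
        · exact h1 v
        · exact hS _ _ hx
      · rw [Function.update_of_ne hk] at hx
        exact hS _ _ hx)
    rw [codeS_update] at h3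
    exact h3
  | peek k f q ih =>
    intro hq v
    choose F hF hF2 using fun o : Option (Sy k) => ih hq (f v (o.map (fun x => x.1)))
    have := hfin k
    obtain ⟨H, hH, hH2⟩ := Poly.fincase (ct k) (hct k) F hF (htop k) (F none) (hF none)
    refine ⟨H, hH, ?_⟩
    intro S hS
    obtain ⟨o, ho, ho2⟩ := htopS k S hS
    rw [hH2 o _ ho, TM2.stepAux, ho2]
    exact hF2 o S hS
  | pop k f q ih =>
    intro hq v
    choose F hF hF2 using fun o : Option (Sy k) => ih hq (f v (o.map (fun x => x.1)))
    have := hfin k
    have hupd : Poly (fun s : K → List ℕ => Function.update s k (s k).tail) :=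
      Poly.updatePi (f := fun s : K → List ℕ => s) (by fun_prop)
        (Poly.tail (Poly.id.eval_pi k))
    obtain ⟨H, hH, hH2⟩ := Poly.fincase (ct k) (hct k)
      (fun o s => F o (Function.update s k (s k).tail)) (fun o => Poly.comp (hF o) hupd)
      (htop k) (F none) (hF none)
    refine ⟨H, hH, ?_⟩
    intro S hS
    obtain ⟨o, ho, ho2⟩ := htopS k S hS
    rw [hH2 o _ ho, TM2.stepAux, ho2]
    have h3 := hF2 o (Function.update S k (S k).tail) (by
      intro k' x hx
      by_cases hk : k' = k
      · subst hk
        rw [Function.update_self] at hx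
        exact hS _ _ (List.mem_of_mem_tail hx)
      · rw [Function.update_of_ne hk] at hx
        exact hS _ _ hx)
    rw [codeS_update, List.map_tail] at h3
    exact h3
  | load a q ih =>
    intro hq v
    obtain ⟨F, hF, hF2⟩ := ih hq (a v)
    exact ⟨F, hF, fun S hS => by rw [TM2.stepAux]; exact hF2 S hS⟩
  | branch p q₁ q₂ ih₁ ih₂ =>
    rintro ⟨h1, h2⟩ v
    cases hp : p v with
    | true =>
      obtain ⟨F, hF, hF2⟩ := ih₁ h1 v
      exact ⟨F, hF, fun S hS => by rw [TM2.stepAux, hp, cond_true]; exact hF2 S hS⟩
    | false =>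
      obtain ⟨F, hF, hF2⟩ := ih₂ h2 v
      exact ⟨F, hF, fun S hS => by rw [TM2.stepAux, hp, cond_false]; exact hF2 S hS⟩
  | goto l =>
    intro _ v
    refine ⟨fun s => (cL (some (l v)), cs v, s), by fun_prop, fun S hS => ?_⟩
    rw [TM2.stepAux]
    exact ⟨rfl, hS⟩
  | halt =>
    intro _ v
    refine ⟨fun s => (cL none, cs v, s), by fun_prop, fun S hS => ?_⟩
    rw [TM2.stepAux]
    exact ⟨rfl, hS⟩

/-- total step function: halted configurations stay -/
def tstep (M : Λ → TM2.Stmt Γ Λ σ) (c : TM2.Cfg Γ Λ σ) : TM2.Cfg Γ Λ σ :=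
  (TM2.step M c).getD c

/-- code of a configuration -/
def codeC (code : ∀ k, Γ k → ℕ) (cL : Option Λ → ℕ) (cs : σ → ℕ) (c : TM2.Cfg Γ Λ σ) :
    ℕ × ℕ × (K → List ℕ) := (cL c.l, cs c.var, codeS code c.stk)

/-- Simulation of one step. -/
theorem sim_step (M : Λ → TM2.Stmt Γ Λ σ)
    (Sy : ∀ k, Set (Γ k)) (hSy : ∀ k, (Sy k).Finite) (hM : ∀ l, Pushes Sy (M l))
    (code : ∀ k, Γ k → ℕ)
    (hcode : ∀ k, Set.InjOn (code k) (Sy k)) (cL : Option Λ → ℕ) (hcL : Function.Injective cL)
    (cs : σ → ℕ) (hcs : Function.Injective cs) :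
    ∃ F : ℕ × ℕ × (K → List ℕ) → ℕ × ℕ × (K → List ℕ), Poly F ∧
      ∀ c : TM2.Cfg Γ Λ σ, (∀ k, ∀ x ∈ c.stk k, x ∈ Sy k) →
        F (codeC code cL cs c) = codeC code cL cs (tstep M c) ∧
        ∀ k, ∀ x ∈ (tstep M c).stk k, x ∈ Sy k := by
  classical
  choose G hG hG2 using fun l v => sim_stmt Sy hSy code hcode cL cs (M l) (hM l) v
  have h1 : ∀ l : Option Λ, ∃ h : ℕ × ℕ × (K → List ℕ) → ℕ × ℕ × (K → List ℕ), Poly h ∧
      ∀ (v : σ) (a : ℕ × ℕ × (K → List ℕ)), a.2.1 = cs v →
        h a = l.elim a (fun l => G l v a.2.2) := by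
    intro l
    refine Poly.fincase cs hcs (fun v a => l.elim a (fun l => G l v a.2.2)) ?_
      (n := fun a => a.2.1) (by fun_prop) (fun a => a) (by fun_prop)
    intro v
    cases l with
    | none => exact Poly.id
    | some l => exact Poly.comp (hG l v) (by fun_prop)
  choose H hH hH2 using h1
  obtain ⟨F, hF, hF2⟩ := Poly.fincase cL hcL H hH (n := fun a => a.1) (by fun_prop)
    (fun a => a) (by fun_prop)
  refine ⟨F, hF, ?_⟩
  rintro ⟨l, v, S⟩ hS
  rw [hF2 l _ rfl, hH2 l v _ rfl]
  cases l with
  | none => exact ⟨rfl, hS⟩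
  | some l => exact hG2 l v S hS

theorem iterate_bind_none {X : Type} (f : X → Option X) (n : ℕ) :
    (flip bind f)^[n] none = (none : Option X) := by
  induction n with
  | zero => rfl
  | succ n ih => rw [Function.iterate_succ_apply]; exact ih

theorem iterate_tstep (M : Λ → TM2.Stmt Γ Λ σ) (n : ℕ) : ∀ (c c' : TM2.Cfg Γ Λ σ),
    (flip bind (TM2.step M))^[n] (some c) = some c' → (tstep M)^[n] c = c' := by
  induction n with
  | zero => intro c c' h; simpa using h
  | succ n ih =>
    intro c c' h
    rw [Function.iterate_succ_apply] at h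
    have e : flip bind (TM2.step M) (some c) = TM2.step M c := rfl
    rw [e] at h
    rw [Function.iterate_succ_apply]
    cases hc : TM2.step M c with
    | none =>
      rw [hc, iterate_bind_none] at h
      simp at h
    | some d =>
      rw [hc] at h
      have : tstep M c = d := by simp [tstep, hc]
      rw [this]
      exact ih d c' h

theorem tstep_halted (M : Λ → TM2.Stmt Γ Λ σ) (c : TM2.Cfg Γ Λ σ) (h : c.l = none) :
    tstep M c = c := by
  obtain ⟨l, v, S⟩ := c
  simp only at h
  subst h
  rfl

theorem iterate_tstep_halted (M : Λ → TM2.Stmt Γ Λ σ) (c : TM2.Cfg Γ Λ σ) (h : c.l = none)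
    (n : ℕ) : (tstep M)^[n] c = c :=
  Function.iterate_fixed (tstep_halted M c h) n

theorem tlen_tstep [Fintype Λ] (M : Λ → TM2.Stmt Γ Λ σ) (c : TM2.Cfg Γ Λ σ) :
    tlen (tstep M c).stk ≤ tlen c.stk + ∑ l, npush (M l) := by
  obtain ⟨l, v, S⟩ := c
  cases l with
  | none => exact Nat.le_add_right _ _
  | some l =>
    have h1 := tlen_stepAux (M l) v S
    have h2 : npush (M l) ≤ ∑ l, npush (M l) :=
      Finset.single_le_sum (f := fun l => npush (M l)) (fun _ _ => Nat.zero_le _)
        (Finset.mem_univ l)
    exact h1.trans (Nat.add_le_add_left h2 _)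

theorem tlen_iterate [Fintype Λ] (M : Λ → TM2.Stmt Γ Λ σ) (c : TM2.Cfg Γ Λ σ) (n : ℕ) :
    tlen ((tstep M)^[n] c).stk ≤ tlen c.stk + n * ∑ l, npush (M l) := by
  induction n with
  | zero => simp
  | succ n ih =>
    rw [Function.iterate_succ_apply']
    have := tlen_tstep M ((tstep M)^[n] c)
    rw [Nat.add_mul]
    omega

theorem sz_codeS_le (code : ∀ k, Γ k → ℕ) (Sy : ∀ k, Set (Γ k)) (N : ℕ)
    (hN : ∀ k, ∀ x ∈ Sy k, code k x ≤ N) (S : ∀ k, List (Γ k))
    (hS : ∀ k, ∀ x ∈ S k, x ∈ Sy k) :
    sz (codeS code S) ≤ tlen S * (2 * N + 2) + 2 * Fintype.card K + 1 := by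
  have h1 : sz (codeS code S) = sz ((Finset.univ.toList : List K).map (codeS code S)) := rfl
  rw [h1, sz_list, List.map_map, List.length_map]
  have h2 : ((Finset.univ.toList : List K).map (sz ∘ codeS code S)).sum =
      ∑ k, sz (codeS code S k) := by
    rw [Finset.sum_map_toList]
    rfl
  rw [h2]
  have h3 : ∑ k, sz (codeS code S k) ≤ ∑ k, ((S k).length * (2 * N + 2) + 1) := by
    apply Finset.sum_le_sum
    intro k _
    refine (sz_le_of_forall _ (2 * N + 1) ?_).trans ?_
    · intro c hc
      obtain ⟨x, hx, rfl⟩ := List.mem_map.1 hc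
      rw [sz_nat]
      have := hN k x (hS k x hx)
      omega
    · simp [codeS]
  rw [Finset.sum_add_distrib, ← Finset.sum_mul] at h3
  simp only [Finset.sum_const, Finset.card_univ, smul_eq_mul, mul_one] at h3
  have h4 : (Finset.univ.toList : List K).length = Fintype.card K := by simp
  rw [h4]
  unfold tlen
  omega

/-- The output of a machine run for a polynomial number of steps is a polynomial function. -/
theorem sim_run [Fintype Λ] (M : Λ → TM2.Stmt Γ Λ σ) (k₀ k₁ : K) [Finite (Γ k₀)]
    (main : Λ) (s0 : σ) {α : Type} [Enc α] (inp : α → List (Γ k₀)) (out : α → List (Γ k₁))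
    (T : α → ℕ) (hT : Poly T)
    (hinp : ∀ c : Γ k₀ → ℕ, Poly (fun a => (inp a).map c))
    (hrun : ∀ a, ((tstep M)^[T a] ⟨some main, s0,
      Function.update (fun _ => []) k₀ (inp a)⟩).stk k₁ = out a)
    {δ : Type} [Enc δ] (g : Γ k₁ → δ) : Poly (fun a => (out a).map g) := by
  classical
  obtain ⟨Sy0, hfin0, hpush0⟩ := exists_pushes_all M
  let Sy : ∀ k, Set (Γ k) := fun k => Sy0 k ∪
    Function.update (fun k => (∅ : Set (Γ k))) k₀ Set.univ k
  have hSy : ∀ k, (Sy k).Finite := by
    intro k
    refine (hfin0 k).union ?_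
    by_cases hk : k = k₀
    · subst hk
      rw [Function.update_self]
      exact Set.finite_univ
    · rw [Function.update_of_ne hk]
      exact Set.finite_empty
  have hSy0 : ∀ x : Γ k₀, x ∈ Sy k₀ := fun x => Or.inr (by
    rw [Function.update_self]; trivial)
  have hM : ∀ l, Pushes Sy (M l) := fun l =>
    Pushes.mono (fun k => Set.subset_union_left) _ (hpush0 l)
  choose code hcode using fun k => Set.countable_iff_exists_injOn.1 (hSy k).countable
  have hbd : ∀ k, ∃ N, ∀ x ∈ Sy k, code k x ≤ N := by
    intro k
    obtain ⟨N, hN⟩ := ((hSy k).image (code k)).bddAbove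
    exact ⟨N, fun x hx => hN ⟨x, hx, rfl⟩⟩
  choose Nk hNk using hbd
  let N := ∑ k, Nk k
  have hN : ∀ k, ∀ x ∈ Sy k, code k x ≤ N := fun k x hx =>
    (hNk k x hx).trans (Finset.single_le_sum (f := Nk) (fun _ _ => Nat.zero_le _)
      (Finset.mem_univ k))
  let cL : Option Λ → ℕ := fun x => (Finite.equivFin (Option Λ) x : ℕ)
  have hcL : Function.Injective cL := Fin.val_injective.comp (Equiv.injective _)
  let cs : σ → ℕ := fun x => (Finite.equivFin σ x : ℕ)
  have hcs : Function.Injective cs := Fin.val_injective.comp (Equiv.injective _)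
  obtain ⟨F, hF, hF2⟩ := sim_step M Sy hSy hM code hcode cL hcL cs hcs
  let ini : α → TM2.Cfg Γ Λ σ := fun a => ⟨some main, s0,
    Function.update (fun _ => []) k₀ (inp a)⟩
  have hini : ∀ a k, ∀ x ∈ (ini a).stk k, x ∈ Sy k := by
    intro a k x hx
    by_cases hk : k = k₀
    · subst hk; exact hSy0 x
    · simp only [ini, Function.update_of_ne hk] at hx
      simp at hx
  have hiter : ∀ a n, F^[n] (codeC code cL cs (ini a)) =
      codeC code cL cs ((tstep M)^[n] (ini a)) ∧
      ∀ k, ∀ x ∈ ((tstep M)^[n] (ini a)).stk k, x ∈ Sy k := by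
    intro a n
    induction n with
    | zero => exact ⟨rfl, hini a⟩
    | succ n ih =>
      rw [Function.iterate_succ_apply', Function.iterate_succ_apply', ih.1]
      exact hF2 _ ih.2
  have hlen : PBdd (fun a => (inp a).length) := by
    refine ((hinp (fun _ => 0)).sz_le).mono fun a => ?_
    have := length_lt_sz ((inp a).map (fun _ => (0 : ℕ)))
    rw [List.length_map] at this
    omega
  have hTb : PBdd T := by
    refine hT.sz_le.mono fun a => ?_
    rw [sz_nat]; omega
  have hinit : Poly (fun a => codeC code cL cs (ini a)) := by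
    have h1 : Poly (fun a => codeS code (ini a).stk) := by
      refine Poly.mk_pi fun k => ?_
      by_cases hk : k = k₀
      · subst hk
        simpa [codeS, ini] using hinp (code k)
      · simpa [codeS, ini, Function.update_of_ne hk] using
          Poly.const (α := α) ([] : List ℕ)
    exact Poly.pair (Poly.const (cL (some main))) (Poly.pair (Poly.const (cs s0)) h1)
  have htl : ∀ a, tlen (ini a).stk = (inp a).length := by
    intro a
    unfold tlen
    rw [Finset.sum_eq_single k₀]
    · simp [ini]
    · intro k _ hk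
      simp [ini, Function.update_of_ne hk]
    · intro h; exact absurd (Finset.mem_univ _) h
  have key := Poly.iterate (f := fun (_ : α) s => F s) (s := fun a => codeC code cL cs (ini a))
    (n := T) (B := fun a => 2 * Nat.card (Option Λ) + 1 + (2 * Nat.card σ + 1) + 2 +
      (((inp a).length + T a * ∑ l, npush (M l)) * (2 * N + 2) + 2 * Fintype.card K + 1))
    (Poly.comp hF Poly.snd) hinit hT
    ((PBdd.const _).add ((((hlen.add (hTb.mul (PBdd.const _))).mul (PBdd.const _)).add
      (PBdd.const _)).add (PBdd.const _))) (by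
      intro a n hn
      have e : (fun s => F s)^[n] (codeC code cL cs (ini a)) =
        F^[n] (codeC code cL cs (ini a)) := rfl
      rw [e, (hiter a n).1]
      unfold codeC
      rw [sz_pair, sz_pair]
      have h1 := sz_codeS_le code Sy N hN _ (hiter a n).2
      have h2 := tlen_iterate M (ini a) n
      rw [htl] at h2
      have h3 : n * ∑ l, npush (M l) ≤ T a * ∑ l, npush (M l) := Nat.mul_le_mul_right _ hn
      have h4 : tlen ((tstep M)^[n] (ini a)).stk * (2 * N + 2) ≤
          ((inp a).length + T a * ∑ l, npush (M l)) * (2 * N + 2) :=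
        Nat.mul_le_mul_right _ (by omega)
      have h5 : cL ((tstep M)^[n] (ini a)).l < Nat.card (Option Λ) := Fin.is_lt _
      have h6 : cs ((tstep M)^[n] (ini a)).var < Nat.card σ := Fin.is_lt _
      rw [sz_nat, sz_nat]
      omega)
  have hres : ∀ a, F^[T a] (codeC code cL cs (ini a)) =
      codeC code cL cs ((tstep M)^[T a] (ini a)) := fun a => (hiter a (T a)).1
  have hout : Poly (fun a => (out a).map (code k₁)) := by
    have h1 : Poly (fun a => (F^[T a] (codeC code cL cs (ini a))).2.2) := by
      have := key
      fun_prop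
    have h2 := h1.eval_pi k₁
    refine (show (fun a => (out a).map (code k₁)) = _ from ?_) ▸ h2
    funext a
    rw [hres a]
    simp only [codeC, codeS]
    rw [hrun a]
  have hmem : ∀ a, ∀ x ∈ out a, x ∈ Sy k₁ := by
    intro a x hx
    rw [← hrun a] at hx
    exact (hiter a (T a)).2 k₁ x hx
  have := (hSy k₁).to_subtype
  rcases isEmpty_or_nonempty δ with he | ⟨⟨d0⟩⟩
  · have : (fun a => (out a).map g) = fun _ => ([] : List δ) := by
      funext a
      cases h : (out a).map g with
      | nil => rfl
      | cons x l => exact (he.false x).elim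
    rw [this]
    exact Poly.const _
  · obtain ⟨dec, hdec, hdec2⟩ := Poly.fincase (T := Sy k₁) (fun x => code k₁ x.1)
      (fun x y h => Subtype.ext (hcode k₁ x.2 y.2 h)) (fun x _ => g x.1)
      (fun x => Poly.const (α := ℕ) (g x.1)) (n := fun n : ℕ => n) (by fun_prop)
      (fun _ => d0) (by fun_prop)
    have h3 : Poly (fun a => ((out a).map (code k₁)).map dec) :=
      Poly.map (f := fun _ n => dec n) (Poly.comp hdec Poly.snd) hout
    refine (show (fun a => (out a).map g) = _ from ?_) ▸ h3
    funext a
    rw [List.map_map]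
    apply List.map_congr_left
    intro x hx
    exact (hdec2 ⟨x, hmem a x hx⟩ (code k₁ x) rfl).symm

end sim

/-- **Converse.** A function computed in polynomial time by a `TM2` machine, with respect to a
polynomial input encoding `ea`, gives a `Poly` function (with output in encoded form). -/
theorem poly_of_tm2 {α β αΓ βΓ : Type} [Enc α] [Enc αΓ] [Enc βΓ] {ea : α → List αΓ}
    {eb : β → List βΓ} {f : α → β} (h : TM2ComputableInPolyTime ea eb f) (hea : Poly ea) :
    Poly (fun a => eb (f a)) := by
  classical
  obtain ⟨⟨tm, ia, oa⟩, time, hout⟩ := h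
  let _ : DecidableEq tm.K := tm.kDecidableEq
  let _ : Fintype tm.K := tm.kFin
  let _ : Fintype tm.Λ := tm.ΛFin
  let _ : Fintype tm.σ := tm.σFin
  let _ : Fintype (tm.Γ tm.k₀) := tm.Γk₀Fin
  have hfin : Finite αΓ := Finite.of_equiv _ ia
  have hT : Poly (fun a => time.eval (ea a).length) :=
    Poly.evalPolynomial time (Poly.length hea)
  have key := sim_run (K := tm.K) (Γ := tm.Γ) (Λ := tm.Λ) (σ := tm.σ) tm.m tm.k₀ tm.k₁ tm.main
    tm.initialState (α := α) (fun a => (ea a).map ia.invFun)
    (fun a => (eb (f a)).map oa.invFun) (fun a => time.eval (ea a).length) hT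
    (by
      intro c
      have h1 : Poly (fun a => (ea a).map (fun x => c (ia.invFun x))) :=
        Poly.map (f := fun _ x => c (ia.invFun x))
          (Poly.comp (f := fun x => c (ia.invFun x)) (Poly.of_finite _) Poly.snd) hea
      simpa [List.map_map, Function.comp_def] using h1)
    (by
      intro a
      obtain ⟨⟨steps, hs⟩, hle⟩ := hout a
      have hhalt := iterate_tstep (K := tm.K) (Γ := tm.Γ) (Λ := tm.Λ) (σ := tm.σ) tm.m steps
        (initList tm ((ea a).map ia.invFun)) (haltList tm ((eb (f a)).map oa.invFun)) hs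
      have hi : (⟨some tm.main, tm.initialState, Function.update (fun _ => []) tm.k₀
          ((ea a).map ia.invFun)⟩ : TM2.Cfg tm.Γ tm.Λ tm.σ) =
          initList tm ((ea a).map ia.invFun) := by
        unfold initList
        congr 1
        funext k
        by_cases hk : k = tm.k₀
        · subst hk
          rw [Function.update_self]
          simp
        · rw [Function.update_of_ne hk]
          simp [hk]
      rw [hi]
      have h2 : (tstep tm.m)^[time.eval (ea a).length] (initList tm ((ea a).map ia.invFun)) =
          haltList tm ((eb (f a)).map oa.invFun) := by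
        obtain ⟨d, hd⟩ := Nat.exists_eq_add_of_le hle
        rw [hd, Nat.add_comm, Function.iterate_add_apply, hhalt]
        exact iterate_tstep_halted _ _ rfl _
      rw [h2]
      unfold haltList
      exact dif_pos rfl)
    (g := fun x => oa x)
  simpa [List.map_map, Function.comp_def] using key

/-- The case of boolean output. -/
theorem poly_of_tm2_bool {α αΓ : Type} [Enc α] [Enc αΓ] {ea : α → List αΓ} {f : α → Bool}
    (h : TM2ComputableInPolyTime ea Computability.encodeBool f) (hea : Poly ea) : Poly f := by
  have h1 := poly_of_tm2 h hea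
  have h2 : Poly (fun a => (Computability.encodeBool (f a)).headD false) := by fun_prop
  exact h2

/-- Functions from bit strings to bit strings: `Poly` is the same as Mathlib's notion. -/
theorem poly_iff_tm2_raw {f : List Bool → List Bool} :
    Poly f ↔ Nonempty (TM2ComputableInPolyTime (fun s : List Bool => s)
      (fun s : List Bool => s) f) :=
  ⟨Poly.tm2_raw, fun ⟨h⟩ => poly_of_tm2 (ea := fun s : List Bool => s)
    (eb := fun s : List Bool => s) (f := f) h Poly.id⟩

/-- Predicates on bit strings: `Poly` is the same as Mathlib's notion. -/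
theorem poly_iff_tm2_raw_bool {f : List Bool → Bool} :
    Poly f ↔ Nonempty (TM2ComputableInPolyTime (fun s : List Bool => s)
      Computability.encodeBool f) :=
  ⟨Poly.tm2_raw_bool, fun ⟨h⟩ => poly_of_tm2_bool h Poly.id⟩

/-- General form of the passage to Mathlib's notion: inputs given by a polynomial injective
encoding into bit strings that is decodable in polynomial time. -/
theorem Poly.tm2_encoded {α β : Type} [Enc α] [Enc β] {ea : α → List Bool}
    {eb : β → List Bool} {f : α → β} (dec : List Bool → α) (hdec : Poly dec)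
    (hd : ∀ a, dec (ea a) = a) (heb : Poly eb) (hf : Poly f) :
    Nonempty (TM2ComputableInPolyTime ea eb f) := by
  have h1 : Poly (fun s => eb (f (dec s))) := by fun_prop
  obtain ⟨M⟩ := Poly.tm2_raw h1
  exact ⟨{ tm := M.tm
           inputAlphabet := M.inputAlphabet
           outputAlphabet := M.outputAlphabet
           time := M.time
           outputsFun := fun x => by
            have := M.outputsFun (ea x)
            rw [hd] at this
            exact this }⟩

end Pool.Agent.H.MP_5be563_lc.PT
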