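import Mathlib

/-!
Binary trees as data and encodings of types as trees.
-/

namespace Pool.Agent.H.MP_5be563_lc.PT

/-- Binary trees: the universal data type. -/
inductive D : Type
  | nil : D
  | cons (a b : D) : D
  deriving DecidableEq

/-- Pre-order serialization. -/
def D.bits : D → List Bool
  | .nil => [false]
  | .cons a b => true :: (a.bits ++ b.bits)

/-- An injective encoding of a type by trees. -/
class Enc (α : Type) where
  /-- the encoding -/
  enc : α → D
  inj : Function.Injective enc

export Enc (enc)

instance : Enc D := ⟨id, fun _ _ h => h⟩

instance : Enc Unit := ⟨fun _ => .nil, fun _ _ _ => rfl⟩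

/-- encoding of booleans -/
def encBool : Bool → D
  | false => .nil
  | true => .cons .nil .nil

instance : Enc Bool := ⟨encBool, by intro a b; cases a <;> cases b <;> simp [encBool]⟩

/-- unary encoding of naturals -/
def encNat : ℕ → D
  | 0 => .nil
  | n + 1 => .cons .nil (encNat n)

instance : Enc ℕ := ⟨encNat, by
  intro a
  induction a with
  | zero => intro b; cases b <;> simp [encNat]
  | succ a ih =>
    intro b
    cases b with
    | zero => simp [encNat]
    | succ b => intro h; simp only [encNat, D.cons.injEq, true_and] at h; rw [ih h]⟩

/-- encoding of lists -/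
def encList {α : Type} [Enc α] : List α → D
  | [] => .nil
  | a :: l => .cons (enc a) (encList l)

instance {α : Type} [Enc α] : Enc (List α) := ⟨encList, by
  intro a
  induction a with
  | nil => intro b; cases b <;> simp [encList]
  | cons x a ih =>
    intro b
    cases b with
    | nil => simp [encList]
    | cons y b =>
      intro h
      simp only [encList, D.cons.injEq] at h
      rw [ih h.2, Enc.inj h.1]⟩

instance {α β : Type} [Enc α] [Enc β] : Enc (α × β) := ⟨fun p => .cons (enc p.1) (enc p.2), by
  rintro ⟨a, b⟩ ⟨c, d⟩ h
  simp only [D.cons.injEq] at h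
  rw [Enc.inj h.1, Enc.inj h.2]⟩

/-- encoding of options -/
def encOption {α : Type} [Enc α] : Option α → D
  | none => .nil
  | some a => .cons .nil (enc a)

instance {α : Type} [Enc α] : Enc (Option α) := ⟨encOption, by
  intro a b h
  cases a <;> cases b <;> simp only [encOption, D.cons.injEq, true_and, reduceCtorEq] at h
  · rfl
  · rw [Enc.inj h]⟩

end Pool.Agent.H.MP_5be563_lc.PT
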