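import Pool.Agent.H.MP_5be563_lc.PT.Prog
import Pool.Agent.H.MP_5be563_lc.PT.Enc

/-!
Binary trees as data, stored on a stack in pre-order, and the closure properties of the class
`PolyD` of functions on trees computed by programs in polynomial time.
-/

namespace Pool.Agent.H.MP_5be563_lc.PT

/-- Number of nodes. -/
def D.size : D → ℕ
  | .nil => 1
  | .cons a b => a.size + b.size + 1

theorem D.bits_length (x : D) : x.bits.length = x.size := by
  induction x with
  | nil => rfl
  | cons a b iha ihb => simp [D.bits, D.size, iha, ihb]

theorem D.size_pos (x : D) : 1 ≤ x.size := by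
  cases x <;> simp [D.size]

/-- Serialization of a list of trees. -/
def lbits (xs : List D) : List Bool := xs.flatMap D.bits

@[simp] theorem lbits_nil : lbits [] = [] := rfl
@[simp] theorem lbits_cons (x : D) (xs : List D) : lbits (x :: xs) = x.bits ++ lbits xs := by
  simp [lbits]
@[simp] theorem lbits_append (xs ys : List D) : lbits (xs ++ ys) = lbits xs ++ lbits ys := by
  simp [lbits]

/-- Total size of a list of trees. -/
def lsize (xs : List D) : ℕ := (xs.map D.size).sum

@[simp] theorem lsize_nil : lsize [] = 0 := rfl
@[simp] theorem lsize_cons (x : D) (xs : List D) : lsize (x :: xs) = x.size + lsize xs := by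
  simp [lsize]

theorem lbits_length (xs : List D) : (lbits xs).length = lsize xs := by
  induction xs with
  | nil => rfl
  | cons x xs ih => simp [ih, D.bits_length]

/-- `p` leads from `s` to `s'` at cost at most `n`. -/
def Run (p : Prog) (s s' : Sto) (n : ℕ) : Prop := ∃ m, m ≤ n ∧ Ev p s s' m

theorem Run.mono {p s s' n m} (h : Run p s s' n) (hnm : n ≤ m) : Run p s s' m := by
  obtain ⟨k, hk, h⟩ := h
  exact ⟨k, hk.trans hnm, h⟩

theorem Run.skip {s} : Run .skip s s 1 := ⟨1, le_rfl, Ev.skip⟩

theorem Run.push {k b s} : Run (.push k b) s (Function.update s k (b :: s k)) 1 :=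
  ⟨1, le_rfl, Ev.push⟩

theorem Run.seq {p q s s' s'' n m} (h : Run p s s' n) (h' : Run q s' s'' m) :
    Run (.seq p q) s s'' (n + m) := by
  obtain ⟨a, ha, h⟩ := h
  obtain ⟨b, hb, h'⟩ := h'
  exact ⟨a + b, by omega, Ev.seq h h'⟩

theorem Run.pop_f {k pe pf pt s s' n} {l : List Bool} (hs : s k = false :: l)
    (h : Run pf (Function.update s k l) s' n) : Run (.pop k pe pf pt) s s' (n + 1) := by
  obtain ⟨a, ha, h⟩ := h
  exact ⟨a + 1, by omega, Ev.pop_f hs h⟩

theorem Run.pop_t {k pe pf pt s s' n} {l : List Bool} (hs : s k = true :: l)
    (h : Run pt (Function.update s k l) s' n) : Run (.pop k pe pf pt) s s' (n + 1) := by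
  obtain ⟨a, ha, h⟩ := h
  exact ⟨a + 1, by omega, Ev.pop_t hs h⟩

theorem Run.loop_e {k pf pt s} (hs : s k = []) : Run (.loop k pf pt) s s 1 :=
  ⟨1, le_rfl, Ev.loop_e hs⟩

theorem Run.loop_f {k pf pt s s' s'' n m} {l : List Bool} (hs : s k = false :: l)
    (h : Run pf (Function.update s k l) s' n) (h' : Run (.loop k pf pt) s' s'' m) :
    Run (.loop k pf pt) s s'' (n + m + 1) := by
  obtain ⟨a, ha, h⟩ := h
  obtain ⟨b, hb, h'⟩ := h'
  exact ⟨a + b + 1, by omega, Ev.loop_f hs h h'⟩

theorem Run.loop_t {k pf pt s s' s'' n m} {l : List Bool} (hs : s k = true :: l)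
    (h : Run pt (Function.update s k l) s' n) (h' : Run (.loop k pf pt) s' s'' m) :
    Run (.loop k pf pt) s s'' (n + m + 1) := by
  obtain ⟨a, ha, h⟩ := h
  obtain ⟨b, hb, h'⟩ := h'
  exact ⟨a + b + 1, by omega, Ev.loop_t hs h h'⟩

theorem Run.while_e {k p s} (hs : s k = []) : Run (.whileT k p) s s 1 :=
  ⟨1, le_rfl, Ev.while_e hs⟩

theorem Run.while_f {k p s} {l : List Bool} (hs : s k = false :: l) :
    Run (.whileT k p) s (Function.update s k l) 1 :=
  ⟨1, le_rfl, Ev.while_f hs⟩

theorem Run.while_t {k p s s' s'' n m} {l : List Bool} (hs : s k = true :: l)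
    (h : Run p (Function.update s k l) s' n) (h' : Run (.whileT k p) s' s'' m) :
    Run (.whileT k p) s s'' (n + m + 1) := by
  obtain ⟨a, ha, h⟩ := h
  obtain ⟨b, hb, h'⟩ := h'
  exact ⟨a + b + 1, by omega, Ev.while_t hs h h'⟩

/-! ### Output size -/

/-- Total content. -/
def tot (s : Sto) : ℕ := (s .M).length + (s .A).length + (s .B).length + (s .C).length

theorem tot_update_cons (s : Sto) (k : Stk) (b : Bool) :
    tot (Function.update s k (b :: s k)) = tot s + 1 := by
  cases k <;> simp [tot, Function.update] <;> omega

theorem tot_update_tail (s : Sto) (k : Stk) (b : Bool) (l : List Bool) (h : s k = b :: l) :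
    tot (Function.update s k l) ≤ tot s := by
  cases k <;> simp [tot, Function.update, h]

theorem Ev.tot_le {p s s' n} (h : Ev p s s' n) : tot s' ≤ tot s + n := by
  induction h with
  | skip => omega
  | push => rw [tot_update_cons]
  | seq _ _ ih1 ih2 => omega
  | pop_e _ _ ih => omega
  | pop_f hs _ ih => have := tot_update_tail _ _ _ _ hs; omega
  | pop_t hs _ ih => have := tot_update_tail _ _ _ _ hs; omega
  | loop_e => omega
  | loop_f hs _ _ ih1 ih2 => have := tot_update_tail _ _ _ _ hs; omega
  | loop_t hs _ _ ih1 ih2 => have := tot_update_tail _ _ _ _ hs; omega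
  | while_e => omega
  | while_f hs => have := tot_update_tail _ _ _ _ hs; omega
  | while_t hs _ _ ih1 ih2 => have := tot_update_tail _ _ _ _ hs; omega

/-! ### Moving trees between stacks -/

/-- Push a bit on A and/or B. -/
def pushAB (da db v : Bool) : Prog :=
  .seq (if da then .push .A v else .skip) (if db then .push .B v else .skip)

/-- conditional prepend -/
def cpre (d : Bool) (x y : List Bool) : List Bool := if d then x ++ y else y

theorem run_pushAB (da db v : Bool) (m a b c : List Bool) :
    Run (pushAB da db v) (mk4 m a b c) (mk4 m (cpre da [v] a) (cpre db [v] b) c) 2 := by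
  unfold pushAB cpre
  refine Run.seq (n := 1) (m := 1) (s' := mk4 m (if da then [v] ++ a else a) b c) ?_ ?_
  · cases da
    · exact Run.skip
    · simpa using Run.push (k := .A) (b := v) (s := mk4 m a b c)
  · cases db
    · exact Run.skip
    · simpa using Run.push (k := .B) (b := v) (s := mk4 m (if da then [v] ++ a else a) b c)

/-- Move as many trees as there are marks on C. -/
def mvloop (da db : Bool) : Prog :=
  .whileT .C (.pop .M .skip (pushAB da db false)
    (.seq (.push .C true) (.seq (.push .C true) (pushAB da db true))))

theorem run_mvloop (da db : Bool) (m : List Bool) : ∀ (n : ℕ) (xs : List D) (a b : List Bool),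
    lsize xs ≤ n → Run (mvloop da db) (mk4 (lbits xs ++ m) a b (List.replicate xs.length true))
      (mk4 m (cpre da (lbits xs).reverse a) (cpre db (lbits xs).reverse b) [])
      (6 * lsize xs + 1) := by
  intro n
  induction n with
  | zero =>
    intro xs a b h
    cases xs with
    | nil => 
      have h1 : cpre da (lbits []).reverse a = a := by cases da <;> simp [cpre]
      have h2 : cpre db (lbits []).reverse b = b := by cases db <;> simp [cpre]
      rw [h1, h2]
      exact Run.while_e rfl
    | cons x xs => have := x.size_pos; simp at h; omega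
  | succ n ih =>
    intro xs a b h
    cases xs with
    | nil => 
      have h1 : cpre da (lbits []).reverse a = a := by cases da <;> simp [cpre]
      have h2 : cpre db (lbits []).reverse b = b := by cases db <;> simp [cpre]
      rw [h1, h2]
      exact Run.while_e rfl
    | cons x xs =>
      cases x with
      | nil =>
        have hsz : lsize xs ≤ n := by simp [D.size] at h; omega
        have key := ih xs (cpre da [false] a) (cpre db [false] b) hsz
        have h1 : cpre da (lbits xs).reverse (cpre da [false] a) =
            cpre da (lbits (D.nil :: xs)).reverse a := by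
          cases da <;> simp [cpre, D.bits]
        have h2 : cpre db (lbits xs).reverse (cpre db [false] b) =
            cpre db (lbits (D.nil :: xs)).reverse b := by
          cases db <;> simp [cpre, D.bits]
        rw [h1, h2] at key
        have : 3 + (6 * lsize xs + 1) + 1 ≤ 6 * lsize (D.nil :: xs) + 1 := by
          simp [D.size]; omega
        refine Run.mono (Run.while_t (l := List.replicate xs.length true)
          (by simp [List.replicate_succ]) (n := 3) ?_ key) this
        simp only [upd_C, lbits_cons, D.bits]
        refine Run.pop_f (l := lbits xs ++ m) rfl ?_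
        simp only [upd_M]
        exact run_pushAB _ _ _ _ _ _ _
      | cons x y =>
        have hsz : lsize (x :: y :: xs) ≤ n := by simp [D.size] at h ⊢; omega
        have key := ih (x :: y :: xs) (cpre da [true] a) (cpre db [true] b) hsz
        have h1 : cpre da (lbits (x :: y :: xs)).reverse (cpre da [true] a) =
            cpre da (lbits (D.cons x y :: xs)).reverse a := by
          cases da <;> simp [cpre, D.bits]
        have h2 : cpre db (lbits (x :: y :: xs)).reverse (cpre db [true] b) =
            cpre db (lbits (D.cons x y :: xs)).reverse b := by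
          cases db <;> simp [cpre, D.bits]
        rw [h1, h2] at key
        have : 5 + (6 * lsize (x :: y :: xs) + 1) + 1 ≤ 6 * lsize (D.cons x y :: xs) + 1 := by
          simp [D.size]; omega
        refine Run.mono (Run.while_t (l := List.replicate xs.length true)
          (by simp [List.replicate_succ]) (n := 5) ?_ key) this
        simp only [upd_C, lbits_cons, D.bits, List.cons_append, List.append_assoc]
        refine Run.pop_t (l := x.bits ++ (y.bits ++ (lbits xs ++ m))) rfl ?_
        simp only [upd_M]
        refine Run.seq (n := 1) (m := 3) Run.push ?_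
        simp only [upd_C, mk4_C]
        refine Run.seq (n := 1) (m := 2) Run.push ?_
        simp only [upd_C, mk4_C]
        exact run_pushAB _ _ _ _ _ _ _

/-- Push `k` marks on C. -/
def marks : ℕ → Prog
  | 0 => .skip
  | k + 1 => .seq (.push .C true) (marks k)

theorem run_marks (m a b : List Bool) : ∀ (k : ℕ) (c : List Bool), Run (marks k) (mk4 m a b c)
    (mk4 m a b (List.replicate k true ++ c)) (k + 1) := by
  intro k
  induction k with
  | zero => intro c; exact Run.skip
  | succ k ih =>
    intro c
    have := ih (true :: c)
    have h2 : List.replicate (k + 1) true ++ c = List.replicate k true ++ true :: c := by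
      rw [List.replicate_succ']; simp
    rw [h2, Nat.add_comm (k + 1) 1]
    refine Run.seq Run.push ?_
    simpa using this

/-- Move `k` trees from M to A and/or B (reversed). -/
def mv (k : ℕ) (da db : Bool) : Prog := .seq (marks k) (mvloop da db)

theorem run_mv (da db : Bool) (m a b : List Bool) (xs : List D) :
    Run (mv xs.length da db) (mk4 (lbits xs ++ m) a b [])
      (mk4 m (cpre da (lbits xs).reverse a) (cpre db (lbits xs).reverse b) [])
      (6 * lsize xs + xs.length + 2) := by
  have h1 := run_marks (lbits xs ++ m) a b xs.length []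
  rw [List.append_nil] at h1
  have h2 := run_mvloop da db m _ xs a b le_rfl
  exact Run.mono (Run.seq h1 h2) (by omega)

/-- Move everything from A (or B) back to M. -/
def restore (k : Stk) : Prog := .loop k (.push .M false) (.push .M true)

theorem run_restoreA (b c : List Bool) : ∀ (a m : List Bool),
    Run (restore .A) (mk4 m a b c) (mk4 (a.reverse ++ m) [] b c) (2 * a.length + 1) := by
  intro a
  induction a with
  | nil => intro m; exact Run.loop_e rfl
  | cons v a ih =>
    intro m
    have key := ih (v :: m)
    have : (v :: a).reverse ++ m = a.reverse ++ v :: m := by simp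
    rw [this]
    have h2 : 1 + (2 * a.length + 1) + 1 ≤ 2 * (v :: a).length + 1 := by simp; omega
    refine Run.mono ?_ h2
    cases v
    · refine Run.loop_f (l := a) rfl (n := 1) ?_ key
      simpa using Run.push (k := .M) (b := false) (s := mk4 m a b c)
    · refine Run.loop_t (l := a) rfl (n := 1) ?_ key
      simpa using Run.push (k := .M) (b := true) (s := mk4 m a b c)

theorem run_restoreB (a c : List Bool) : ∀ (b m : List Bool),
    Run (restore .B) (mk4 m a b c) (mk4 (b.reverse ++ m) a [] c) (2 * b.length + 1) := by
  intro b
  induction b with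
  | nil => intro m; exact Run.loop_e rfl
  | cons v b ih =>
    intro m
    have key := ih (v :: m)
    have : (v :: b).reverse ++ m = b.reverse ++ v :: m := by simp
    rw [this]
    have h2 : 1 + (2 * b.length + 1) + 1 ≤ 2 * (v :: b).length + 1 := by simp; omega
    refine Run.mono ?_ h2
    cases v
    · refine Run.loop_f (l := b) rfl (n := 1) ?_ key
      simpa using Run.push (k := .M) (b := false) (s := mk4 m a b c)
    · refine Run.loop_t (l := b) rfl (n := 1) ?_ key
      simpa using Run.push (k := .M) (b := true) (s := mk4 m a b c)

/-- Store with trees on the main stack. -/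
def stk (xs : List D) (m : List Bool) : Sto := mk4 (lbits xs ++ m) [] [] []

/-- Copy the `i`-th tree to the top. -/
def pick (i : ℕ) : Prog :=
  .seq (mv i true false) (.seq (mv 1 true true) (.seq (restore .A) (restore .B)))

/-- Move the `i`-th tree to the top. -/
def roll (i : ℕ) : Prog :=
  .seq (mv i true false) (.seq (mv 1 false true) (.seq (restore .A) (restore .B)))

/-- Drop the top tree. -/
def drop : Prog := mv 1 false false

theorem run_pick (xs : List D) (y : D) (zs : List D) (m : List Bool) :
    Run (pick xs.length) (stk (xs ++ y :: zs) m) (stk (y :: (xs ++ y :: zs)) m)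
      (20 * (lsize xs + y.size) + xs.length + 10) := by
  unfold pick stk
  have e0 : lbits (xs ++ y :: zs) ++ m = lbits xs ++ (lbits [y] ++ (lbits zs ++ m)) := by
    simp
  have h1 := run_mv true false (lbits [y] ++ (lbits zs ++ m)) [] [] xs
  have h2 := run_mv true true (lbits zs ++ m) (cpre true (lbits xs).reverse [])
    (cpre false (lbits xs).reverse []) [y]
  have h3 := run_restoreA (cpre true (lbits [y]).reverse (cpre false (lbits xs).reverse []))
    [] (cpre true (lbits [y]).reverse (cpre true (lbits xs).reverse [])) (lbits zs ++ m)
  have h4 := run_restoreB [] []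
    (cpre true (lbits [y]).reverse (cpre false (lbits xs).reverse []))
    ((cpre true (lbits [y]).reverse (cpre true (lbits xs).reverse [])).reverse ++
      (lbits zs ++ m))
  have h := Run.seq h1 (Run.seq h2 (Run.seq h3 h4))
  rw [e0]
  have e1 : (cpre true (lbits [y]).reverse (cpre false (lbits xs).reverse [])).reverse ++
      ((cpre true (lbits [y]).reverse (cpre true (lbits xs).reverse [])).reverse ++
      (lbits zs ++ m)) = lbits (y :: (xs ++ y :: zs)) ++ m := by
    simp [cpre]
  rw [e1] at h
  refine Run.mono h ?_
  simp [cpre, lbits_length, D.bits_length]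
  omega

theorem run_roll (xs : List D) (y : D) (zs : List D) (m : List Bool) :
    Run (roll xs.length) (stk (xs ++ y :: zs) m) (stk (y :: (xs ++ zs)) m)
      (20 * (lsize xs + y.size) + xs.length + 10) := by
  unfold roll stk
  have e0 : lbits (xs ++ y :: zs) ++ m = lbits xs ++ (lbits [y] ++ (lbits zs ++ m)) := by
    simp
  have h1 := run_mv true false (lbits [y] ++ (lbits zs ++ m)) [] [] xs
  have h2 := run_mv false true (lbits zs ++ m) (cpre true (lbits xs).reverse [])
    (cpre false (lbits xs).reverse []) [y]
  have h3 := run_restoreA (cpre true (lbits [y]).reverse (cpre false (lbits xs).reverse []))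
    [] (cpre false (lbits [y]).reverse (cpre true (lbits xs).reverse [])) (lbits zs ++ m)
  have h4 := run_restoreB [] []
    (cpre true (lbits [y]).reverse (cpre false (lbits xs).reverse []))
    ((cpre false (lbits [y]).reverse (cpre true (lbits xs).reverse [])).reverse ++
      (lbits zs ++ m))
  have h := Run.seq h1 (Run.seq h2 (Run.seq h3 h4))
  rw [e0]
  have e1 : (cpre true (lbits [y]).reverse (cpre false (lbits xs).reverse [])).reverse ++
      ((cpre false (lbits [y]).reverse (cpre true (lbits xs).reverse [])).reverse ++
      (lbits zs ++ m)) = lbits (y :: (xs ++ zs)) ++ m := by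
    simp [cpre]
  rw [e1] at h
  refine Run.mono h ?_
  simp [cpre, lbits_length, D.bits_length]
  omega

theorem run_drop (y : D) (zs : List D) (m : List Bool) :
    Run drop (stk (y :: zs) m) (stk zs m) (6 * y.size + 3) := by
  unfold drop stk
  have h := run_mv false false (lbits zs ++ m) [] [] [y]
  simpa [cpre] using h

theorem run_cons (x y : D) (zs : List D) (m : List Bool) :
    Run (.push .M true) (stk (x :: y :: zs) m) (stk (D.cons x y :: zs) m) 1 := by
  have := Run.push (k := .M) (b := true) (s := stk (x :: y :: zs) m)
  unfold stk at *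
  simpa [D.bits] using this

theorem run_nil (zs : List D) (m : List Bool) :
    Run (.push .M false) (stk zs m) (stk (D.nil :: zs) m) 1 := by
  have := Run.push (k := .M) (b := false) (s := stk zs m)
  unfold stk at *
  simpa [D.bits] using this

theorem run_case_nil {pe pf pt : Prog} {zs : List D} {m : List Bool} {s' : Sto} {n : ℕ}
    (h : Run pf (stk zs m) s' n) : Run (.pop .M pe pf pt) (stk (D.nil :: zs) m) s' (n + 1) := by
  refine Run.pop_f (l := lbits zs ++ m) (by simp [stk, D.bits]) ?_
  simpa [stk] using h

theorem run_case_cons {pe pf pt : Prog} {x y : D} {zs : List D} {m : List Bool} {s' : Sto}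
    {n : ℕ} (h : Run pt (stk (x :: y :: zs) m) s' n) :
    Run (.pop .M pe pf pt) (stk (D.cons x y :: zs) m) s' (n + 1) := by
  refine Run.pop_t (l := x.bits ++ (y.bits ++ (lbits zs ++ m))) (by simp [stk, D.bits]) ?_
  simpa [stk] using h

theorem poly_mono (P : Polynomial ℕ) {a b : ℕ} (h : a ≤ b) : P.eval a ≤ P.eval b := by
  simp only [Polynomial.eval_eq_sum, Polynomial.sum]
  exact Finset.sum_le_sum fun i _ => Nat.mul_le_mul_left _ (Nat.pow_le_pow_left h i)

/-- lifting a run on one tree to a run with more trees below -/
theorem run_lift {p : Prog} {x y : D} {n : ℕ} (h : ∀ m, Run p (stk [x] m) (stk [y] m) n)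
    (zs : List D) (m : List Bool) : Run p (stk (x :: zs) m) (stk (y :: zs) m) n := by
  have := h (lbits zs ++ m)
  simpa [stk] using this

end Pool.Agent.H.MP_5be563_lc.PT
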