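import Pool.Agent.H.MP_5be563_lc.PT.Main
import Pool.Agent.H.MP_5be563_lc.PT.Arith

/-!
Trees as bit strings, equality tests, recursion on trees, membership.
-/

set_option linter.unusedSectionVars false

namespace Pool.Agent.H.MP_5be563_lc.PT

section

variable {α β γ δ : Type} [Enc α] [Enc β] [Enc γ] [Enc δ]

/-! ### The bits of a tree -/

theorem run_encLoop' (b c m : List Bool) : ∀ (a l : List Bool),
    Run encLoop (mk4 ((enc l).bits ++ m) a b c) (mk4 ((enc (a.reverse ++ l)).bits ++ m) [] b c)
      (5 * a.length + 1) := by
  intro a
  induction a with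
  | nil => intro l; exact Run.loop_e rfl
  | cons v a ih =>
    intro l
    have key := ih (v :: l)
    have : (v :: a).reverse ++ l = a.reverse ++ v :: l := by simp
    rw [this]
    have h2 : 4 + (5 * a.length + 1) + 1 ≤ 5 * (v :: a).length + 1 := by simp; omega
    refine Run.mono ?_ h2
    cases v
    · refine Run.loop_f (l := a) rfl (n := 4) ?_ key
      rw [upd_A]
      have h1 := Run.push (k := .M) (b := false) (s := mk4 ((enc l).bits ++ m) a b c)
      have h2 := Run.push (k := .M) (b := true) (s := mk4 (false :: ((enc l).bits ++ m)) a b c)
      rw [mk4_M, upd_M] at h1 h2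
      refine Run.mono (Run.seq h1 h2) (by omega)
    · refine Run.loop_t (l := a) rfl (n := 4) ?_ key
      rw [upd_A]
      have h1 := Run.push (k := .M) (b := false) (s := mk4 ((enc l).bits ++ m) a b c)
      have h2 := Run.push (k := .M) (b := false) (s := mk4 (false :: ((enc l).bits ++ m)) a b c)
      have h3 := Run.push (k := .M) (b := true)
        (s := mk4 (false :: false :: ((enc l).bits ++ m)) a b c)
      have h4 := Run.push (k := .M) (b := true)
        (s := mk4 (true :: false :: false :: ((enc l).bits ++ m)) a b c)
      rw [mk4_M, upd_M] at h1 h2 h3 h4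
      refine Run.mono (Run.seq h1 (Run.seq h2 (Run.seq h3 h4))) (by omega)

theorem Poly.bits0 : Poly (fun x : D => x.bits) := by
  refine ⟨.seq (mv 1 true false) (.seq (.push .M false) encLoop),
    6 * Polynomial.X + 3 + 1 + (5 * Polynomial.X + 1), fun x m => ?_⟩
  have h1 := run_mv true false m [] [] [x]
  have h2 := Run.push (k := .M) (b := false) (s := mk4 m (x.bits.reverse) [] [])
  rw [mk4_M, upd_M] at h2
  have h3 := run_encLoop' [] [] m x.bits.reverse []
  have e1 : mk4 (lbits [x] ++ m) [] [] [] = stk [enc x] m := rfl
  have e2 : mk4 m (cpre true (lbits [x]).reverse []) (cpre false (lbits [x]).reverse []) [] =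
      mk4 m x.bits.reverse [] [] := by simp [cpre]
  have e3 : mk4 ((enc (x.bits.reverse.reverse ++ ([] : List Bool))).bits ++ m) [] [] [] =
      stk [enc x.bits] m := by simp [stk]
  rw [e1, e2] at h1
  rw [e3] at h3
  refine Run.mono (Run.seq h1 (Run.seq h2 h3)) ?_
  have hs : sz x = x.size := rfl
  simp [D.bits_length, hs]
  omega

/-- the pre-order serialization of a tree is computable in polynomial time -/
@[fun_prop]
theorem Poly.bits {f : α → D} (hf : Poly f) : Poly (fun a => (f a).bits) :=
  Poly.comp (f := fun x : D => x.bits) Poly.bits0 hf

/-- the encoding itself, as a function to trees -/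
@[fun_prop]
theorem Poly.encD {f : α → β} (hf : Poly f) : Poly (fun a => enc (f a)) :=
  hf.congr_enc fun _ => rfl

/-! ### Parsing trees -/

/-- one step of the right-to-left tree parser -/
def parseStep (b : Bool) (s : List D) : List D :=
  bif b then D.cons (s.headD .nil) (s.tail.headD .nil) :: s.tail.tail else D.nil :: s

/-- parse a bit string as a forest, from right to left -/
def forest (l : List Bool) : List D := l.foldr parseStep []

/-- parse a bit string as a tree -/
def parseD (l : List Bool) : D := (forest l).headD .nil

theorem forest_bits (x : D) : ∀ l : List Bool, forest (x.bits ++ l) = x :: forest l := by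
  induction x with
  | nil => intro l; rfl
  | cons a b iha ihb =>
    intro l
    have : (D.cons a b).bits ++ l = true :: (a.bits ++ (b.bits ++ l)) := by simp [D.bits]
    rw [this]
    have h2 : forest (true :: (a.bits ++ (b.bits ++ l))) =
      parseStep true (forest (a.bits ++ (b.bits ++ l))) := rfl
    rw [h2, iha, ihb]
    rfl

@[simp] theorem parseD_bits (x : D) : parseD x.bits = x := by
  have := forest_bits x []
  rw [List.append_nil] at this
  simp [parseD, this]

theorem forest_lbits (xs : List D) : forest (lbits xs) = xs := by
  induction xs with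
  | nil => rfl
  | cons x xs ih => rw [lbits_cons, forest_bits, ih]

theorem D.bits_injective : Function.Injective D.bits := fun x y h => by
  rw [← parseD_bits x, ← parseD_bits y, h]

theorem sz_D (x : D) : sz x = x.size := rfl

theorem size_headD_tail (s : List D) : (s.headD .nil).size + sz s.tail ≤ sz s + 1 := by
  cases s with
  | nil => simp [D.size]
  | cons x s => simp only [List.headD_cons, List.tail_cons, sz_lcons, sz_D]; omega

theorem sz_forest_le (l : List Bool) : sz (forest l) ≤ 4 * l.length + 1 := by
  induction l with
  | nil => simp [forest]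
  | cons b l ih =>
    have h2 : forest (b :: l) = parseStep b (forest l) := rfl
    rw [h2]
    unfold parseStep
    cases b
    · simp only [cond_false, sz_lcons, List.length_cons, sz_D, D.size]; omega
    · have h3 := size_headD_tail (forest l)
      have h4 := size_headD_tail (forest l).tail
      simp only [cond_true, sz_lcons, List.length_cons, sz_D, D.size]
      omega

/-- a specialised constructor of trees -/
@[fun_prop]
theorem Poly.dcons {f g : α → D} (hf : Poly f) (hg : Poly g) :
    Poly (fun a => D.cons (f a) (g a)) := hf.consD hg fun _ => rfl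

@[fun_prop]
theorem Poly.parseStep {f : α → Bool} {g : α → List D} (hf : Poly f) (hg : Poly g) :
    Poly (fun a => parseStep (f a) (g a)) := by
  unfold PT.parseStep
  fun_prop

@[fun_prop]
theorem Poly.forest {l : α → List Bool} (hl : Poly l) : Poly (fun a => forest (l a)) := by
  have := Poly.foldr (f := fun p : α × List D × Bool => PT.parseStep p.2.2 p.2.1) (l := l)
    (s0 := fun _ => []) (B := fun a => 4 * sz (l a) + 1) (by fun_prop) hl (by fun_prop)
    (((PBdd.const 4).mul hl.sz_le).add (PBdd.const 1)) (by
      intro a l₁ l₂ h
      have h1 := sz_forest_le l₂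
      have h2 := length_lt_sz (l a)
      rw [h, List.length_append] at h2
      rw [h]
      have : sz (l₂.foldr (fun b s => PT.parseStep b s) []) ≤ 4 * l₂.length + 1 := h1
      simp only
      omega)
  exact this

@[fun_prop]
theorem Poly.parseD {l : α → List Bool} (hl : Poly l) : Poly (fun a => parseD (l a)) := by
  unfold PT.parseD
  fun_prop

/-! ### Equality tests -/

/-- one step of the comparison of two bit strings -/
def eqStep (s : List Bool × Bool) (b : Bool) : List Bool × Bool :=
  (s.1.tail, s.2 && (!(s.1.isEmpty) && (s.1.headD false == b)))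

/-- equality of two bit strings -/
def eqBits (x y : List Bool) : Bool :=
  (x.foldl eqStep (y, true)).2 && (x.foldl eqStep (y, true)).1.isEmpty

theorem foldl_eqStep_false (x : List Bool) : ∀ y, (x.foldl eqStep (y, false)).2 = false := by
  induction x with
  | nil => intro y; rfl
  | cons b x ih =>
    intro y
    rw [List.foldl_cons]
    have : eqStep (y, false) b = (y.tail, false) := by simp [eqStep]
    rw [this, ih]

theorem eqBits_iff (x : List Bool) : ∀ y, eqBits x y = true ↔ x = y := by
  induction x with
  | nil => intro y; cases y <;> simp [eqBits]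
  | cons b x ih =>
    intro y
    cases y with
    | nil =>
      have : eqStep (([] : List Bool), true) b = ([], false) := by simp [eqStep]
      simp [eqBits, List.foldl_cons, this, foldl_eqStep_false]
    | cons c y =>
      by_cases hbc : c = b
      · subst hbc
        have : eqStep (c :: y, true) c = (y, true) := by simp [eqStep]
        have h2 : eqBits (c :: x) (c :: y) = eqBits x y := by
          unfold eqBits
          rw [List.foldl_cons, this]
        rw [h2, ih]
        simp
      · have : eqStep (c :: y, true) b = (y, false) := by simp [eqStep, hbc]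
        have h2 : eqBits (b :: x) (c :: y) = false := by
          unfold eqBits
          rw [List.foldl_cons, this, foldl_eqStep_false]
          simp
        rw [h2]
        simp only [Bool.false_eq_true, List.cons.injEq, false_iff, not_and]
        intro h
        exact absurd h.symm hbc

@[fun_prop]
theorem Poly.eqBits {f g : α → List Bool} (hf : Poly f) (hg : Poly g) :
    Poly (fun a => eqBits (f a) (g a)) := by
  have key := Poly.foldl (f := fun p : α × (List Bool × Bool) × Bool => eqStep p.2.1 p.2.2)
    (l := f) (s0 := fun a => (g a, true)) (B := fun a => sz (g a) + 4)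
    (by unfold eqStep; fun_prop) hf (by fun_prop) (hg.sz_le.add (PBdd.const 4)) (by
      intro a l₁ l₂ _
      have : ∀ (l : List Bool) (s : List Bool × Bool), sz (l.foldl eqStep s).1 ≤ sz s.1 := by
        intro l
        induction l with
        | nil => intro s; exact le_rfl
        | cons b l ih =>
          intro s
          rw [List.foldl_cons]
          refine (ih _).trans ?_
          exact sz_sublist_le (List.tail_sublist _)
      have h1 := this l₁ (g a, true)
      have h2 := sz_bool_le (l₁.foldl eqStep (g a, true)).2
      have e : l₁.foldl (fun s b => eqStep (a, s, b).2.1 (a, s, b).2.2) (g a, true) =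
        l₁.foldl eqStep (g a, true) := rfl
      rw [e, sz_prod]
      simp only at h1
      omega)
  unfold PT.eqBits
  have k : Poly (fun a => (f a).foldl eqStep (g a, true)) := key
  fun_prop

/-- a decidable predicate is polynomial if it is equivalent to a polynomial boolean function -/
theorem Poly.decide_of_iff {p : α → Prop} [DecidablePred p] {f : α → Bool} (hf : Poly f)
    (h : ∀ a, p a ↔ f a = true) : Poly (fun a => decide (p a)) := by
  refine (show (fun a => decide (p a)) = f from ?_) ▸ hf
  funext a
  have := h a
  cases hfa : f a
  · rw [hfa] at this; simpa using this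
  · rw [hfa] at this; simpa using this

/-- equality of elements of an encoded type -/
@[fun_prop]
theorem Poly.decEq [DecidableEq β] {f g : α → β} (hf : Poly f) (hg : Poly g) :
    Poly (fun a => decide (f a = g a)) := by
  refine Poly.decide_of_iff (f := fun a => PT.eqBits (enc (f a)).bits (enc (g a)).bits)
    (by fun_prop) fun a => ?_
  rw [eqBits_iff, D.bits_injective.eq_iff]
  exact (Enc.inj).eq_iff.symm

@[fun_prop]
theorem Poly.beqG [BEq β] [LawfulBEq β] {f g : α → β} (hf : Poly f) (hg : Poly g) :
    Poly (fun a => f a == g a) := by
  classical
  have : Poly (fun a => PT.eqBits (enc (f a)).bits (enc (g a)).bits) := by fun_prop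
  refine (show (fun a => f a == g a) = _ from ?_) ▸ this
  funext a
  rw [Bool.eq_iff_iff, eqBits_iff, D.bits_injective.eq_iff, (Enc.inj).eq_iff]
  simp

/-- membership in a list -/
@[fun_prop]
theorem Poly.mem {x : α → β} {l : α → List β} [∀ a, Decidable (x a ∈ l a)] (hx : Poly x)
    (hl : Poly l) : Poly (fun a => decide (x a ∈ l a)) := by
  classical
  refine Poly.decide_of_iff (p := fun a => x a ∈ l a)
    (f := fun a => (l a).any (fun y => decide (y = x a))) (by fun_prop) fun a => ?_
  simp

@[fun_prop]
theorem Poly.elem [BEq β] [LawfulBEq β] {x : α → β} {l : α → List β} (hx : Poly x)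
    (hl : Poly l) : Poly (fun a => (l a).contains (x a)) := by
  classical
  have : Poly (fun a => decide (x a ∈ l a)) := by fun_prop
  refine (show (fun a => (l a).contains (x a)) = _ from ?_) ▸ this
  funext a
  rw [Bool.eq_iff_iff]
  simp

/-! ### More on lists -/

@[fun_prop]
theorem Poly.getElem? {n : α → ℕ} {l : α → List β} (hn : Poly n) (hl : Poly l) :
    Poly (fun a => (l a)[n a]?) := by
  have : Poly (fun a => ((l a).drop (n a)).head?) := by fun_prop
  simpa using this

@[fun_prop]
theorem Poly.replicate {n : α → ℕ} {x : α → β} (hn : Poly n) (hx : Poly x) :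
    Poly (fun a => List.replicate (n a) (x a)) := by
  have : Poly (fun a => (List.replicate (n a) ()).map (fun _ => x a)) := by fun_prop
  simpa using this

/-- one step of zipping -/
theorem Poly.zip {f : α → List β} {g : α → List γ} (hf : Poly f) (hg : Poly g) :
    Poly (fun a => (f a).zip (g a)) := by
  classical
  have h1 : Poly (fun a => (List.range (f a).length).flatMap (fun i =>
      ((f a).drop i).head?.elim [] (fun x =>
        ((g a).drop i).head?.elim [] (fun y => [(x, y)])))) := by
    fun_prop
  refine (show (fun a => (f a).zip (g a)) = _ from ?_) ▸ h1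
  funext a
  have key : ∀ (l : List β) (m : List γ),
      l.zip m = (List.range l.length).flatMap (fun i =>
      (l.drop i).head?.elim [] (fun x => (m.drop i).head?.elim [] (fun y => [(x, y)]))) := by
    intro l
    induction l with
    | nil => simp
    | cons x l ih =>
      intro m
      rw [List.length_cons, List.range_succ_eq_map, List.flatMap_cons, List.flatMap_map]
      cases m with
      | nil =>
        simp only [List.zip_nil_right, List.drop_zero, List.head?_cons, Option.elim,
          List.head?_nil, List.drop_nil, List.nil_append]
        symm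
        rw [List.flatMap_eq_nil_iff]
        intro i _
        cases (List.drop (i.succ) (x :: l)).head? <;> rfl
      | cons y m => simp [ih m]
  exact key _ _

attribute [fun_prop] Poly.zip

@[fun_prop]
theorem Poly.zipWith {f : α → β → γ → δ} {l : α → List β} {m : α → List γ}
    (hf : Poly (fun p : α × β × γ => f p.1 p.2.1 p.2.2)) (hl : Poly l) (hm : Poly m) :
    Poly (fun a => List.zipWith (f a) (l a) (m a)) := by
  have h1 : Poly (fun a => ((l a).zip (m a)).map (fun q => f a q.1 q.2)) :=
    Poly.map (f := fun a (q : β × γ) => f a q.1 q.2) hf (hl.zip hm)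
  refine (show (fun a => List.zipWith (f a) (l a) (m a)) = _ from ?_) ▸ h1
  funext a
  rw [List.map_zip_eq_zipWith]
  rfl

@[fun_prop]
theorem Poly.find? {f : α → β → Bool} {l : α → List β}
    (hf : Poly (fun p : α × β => f p.1 p.2)) (hl : Poly l) :
    Poly (fun a => (l a).find? (f a)) := by
  have : Poly (fun a => ((l a).filter (f a)).head?) := by fun_prop
  simpa using this

@[fun_prop]
theorem Poly.set {n : α → ℕ} {l : α → List β} {x : α → β} (hn : Poly n) (hl : Poly l)
    (hx : Poly x) : Poly (fun a => (l a).set (n a) (x a)) := by
  have : Poly (fun a => if n a < (l a).length then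
      (l a).take (n a) ++ x a :: (l a).drop (n a + 1) else l a) := by fun_prop
  refine (show (fun a => (l a).set (n a) (x a)) = _ from ?_) ▸ this
  funext a
  split_ifs with h
  · rw [List.set_eq_take_append_cons_drop, if_pos h]
  · rw [List.set_eq_take_append_cons_drop, if_neg h]

/-! ### Recursion on trees -/

/-- structural recursion on trees -/
def D.fold {γ : Type} (z : γ) (g : γ → γ → γ) : D → γ
  | .nil => z
  | .cons a b => g (D.fold z g a) (D.fold z g b)

/-- the list of all subtrees -/
def D.subs : D → List D
  | .nil => [.nil]
  | .cons a b => .cons a b :: (a.subs ++ b.subs)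

theorem D.self_mem_subs (x : D) : x ∈ x.subs := by cases x <;> simp [D.subs]

theorem lbits_suffix : ∀ (n : ℕ) (xs : List D) (l₁ l₂ : List Bool), lsize xs ≤ n →
    lbits xs = l₁ ++ l₂ → ∃ ys : List D, l₂ = lbits ys ∧
      ∀ y ∈ ys, ∃ x ∈ xs, y ∈ x.subs := by
  intro n
  induction n with
  | zero =>
    intro xs l₁ l₂ h he
    cases xs with
    | nil =>
      simp only [lbits_nil] at he
      have h2 := (List.append_eq_nil_iff.1 he.symm).2
      exact ⟨[], by simp [h2], by simp⟩
    | cons x xs => have := x.size_pos; simp at h; omega
  | succ n ih =>
    intro xs l₁ l₂ h he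
    cases l₁ with
    | nil => exact ⟨xs, by simpa using he.symm, fun y hy => ⟨y, hy, y.self_mem_subs⟩⟩
    | cons v l₁ =>
      cases xs with
      | nil => simp at he
      | cons x xs =>
        cases x with
        | nil =>
          simp only [lbits_cons, D.bits, List.cons_append, List.nil_append,
            List.cons.injEq] at he
          obtain ⟨ys, h1, h2⟩ := ih xs l₁ l₂ (by simp [D.size] at h; omega) he.2
          refine ⟨ys, h1, fun y hy => ?_⟩
          obtain ⟨x, hx, hy⟩ := h2 y hy
          exact ⟨x, by simp [hx], hy⟩
        | cons a b =>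
          simp only [lbits_cons, D.bits, List.cons_append, List.append_assoc,
            List.cons.injEq] at he
          obtain ⟨ys, h1, h2⟩ := ih (a :: b :: xs) l₁ l₂ (by simp [D.size] at h ⊢; omega)
            (by simpa using he.2)
          refine ⟨ys, h1, fun y hy => ?_⟩
          obtain ⟨x, hx, hy⟩ := h2 y hy
          rcases List.mem_cons.1 hx with rfl | hx
          · exact ⟨.cons x b, by simp, by simp [D.subs, hy]⟩
          · rcases List.mem_cons.1 hx with rfl | hx
            · exact ⟨.cons a x, by simp, by simp [D.subs, hy]⟩
            · exact ⟨x, by simp [hx], hy⟩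

/-- one step of the evaluation of a fold -/
def foldStep {γ : Type} (z : γ) (g : γ → γ → γ) (b : Bool) (s : List γ) : List γ :=
  bif b then g (s.headD z) (s.tail.headD z) :: s.tail.tail else z :: s

theorem foldr_foldStep {γ : Type} (z : γ) (g : γ → γ → γ) (x : D) : ∀ (l : List Bool),
    (x.bits ++ l).foldr (foldStep z g) [] = D.fold z g x :: l.foldr (foldStep z g) [] := by
  induction x with
  | nil => intro l; rfl
  | cons a b iha ihb =>
    intro l
    have : (D.cons a b).bits ++ l = true :: (a.bits ++ (b.bits ++ l)) := by simp [D.bits]
    rw [this, List.foldr_cons, iha, ihb]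
    rfl

theorem foldr_foldStep_lbits {γ : Type} (z : γ) (g : γ → γ → γ) (xs : List D) :
    (lbits xs).foldr (foldStep z g) [] = xs.map (D.fold z g) := by
  induction xs with
  | nil => rfl
  | cons x xs ih => rw [lbits_cons, foldr_foldStep, ih]; rfl

/-- Structural recursion on trees is polynomial if all intermediate values are polynomially
bounded. -/
theorem Poly.dfold {z : α → γ} {g : α → γ → γ → γ} {t : α → D} {B : α → ℕ}
    (hz : Poly z) (hg : Poly (fun p : α × γ × γ => g p.1 p.2.1 p.2.2)) (ht : Poly t)
    (hB : PBdd B) (h : ∀ a, ∀ s ∈ (t a).subs, sz (D.fold (z a) (g a) s) ≤ B a) :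
    Poly (fun a => D.fold (z a) (g a) (t a)) := by
  have hstep : Poly (fun p : α × List γ × Bool =>
      foldStep (z p.1) (g p.1) p.2.2 p.2.1) := by
    unfold foldStep
    refine Poly.cond (by fun_prop) (Poly.lcons (Poly.comp (f := fun p : α × γ × γ =>
      g p.1 p.2.1 p.2.2) (g := fun p : α × List γ × Bool =>
        (p.1, p.2.1.headD (z p.1), p.2.1.tail.headD (z p.1))) hg (by fun_prop)) (by fun_prop))
      (by fun_prop)
  have key := Poly.foldr (f := fun p : α × List γ × Bool =>
      foldStep (z p.1) (g p.1) p.2.2 p.2.1) (l := fun a => (t a).bits)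
    (s0 := fun _ => []) (B := fun a => sz (t a) * (B a + 1) + 1) hstep (by fun_prop)
    (by fun_prop) ((ht.sz_le.mul (hB.add (PBdd.const 1))).add (PBdd.const 1)) (by
      intro a l₁ l₂ he
      obtain ⟨ys, h1, h2⟩ := lbits_suffix (t a).size [t a] l₁ l₂ (by simp) (by simpa using he)
      have e : l₂.foldr (fun b s => foldStep (z a) (g a) b s) [] =
          ys.map (D.fold (z a) (g a)) := by
        rw [h1]; exact foldr_foldStep_lbits _ _ _
      simp only
      rw [e]
      refine (sz_le_of_forall _ (B a) ?_).trans ?_
      · intro c hc
        obtain ⟨y, hy, rfl⟩ := List.mem_map.1 hc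
        obtain ⟨x, hx, hyx⟩ := h2 y hy
        rw [List.mem_singleton] at hx
        subst hx
        exact h a y hyx
      · rw [List.length_map]
        have h3 : ys.length ≤ sz (t a) := by
          have h4 : ys.length ≤ (lbits ys).length := by
            rw [lbits_length]
            clear e h2 h1
            induction ys with
            | nil => simp
            | cons y ys ih => have := y.size_pos; simp; omega
          have h5 : l₂.length ≤ (t a).bits.length := by
            rw [he]; simp
          rw [D.bits_length] at h5
          rw [← h1] at h4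
          exact h4.trans h5
        have := Nat.mul_le_mul_right (B a + 1) h3
        omega)
  have h2 : Poly (fun a => ((t a).bits.foldr (foldStep (z a) (g a)) []).headD (z a)) :=
    Poly.headD key hz
  refine (show (fun a => D.fold (z a) (g a) (t a)) = _ from ?_) ▸ h2
  funext a
  have := foldr_foldStep (z a) (g a) (t a) []
  rw [List.append_nil] at this
  rw [this]
  rfl

end

end Pool.Agent.H.MP_5be563_lc.PT
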